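import Pool.Agent.H951R5.PE.Pos
import Pool.Agent.H951R5.AR.Cov

/-!
# Pointwise equidistribution: the core
-/

set_option autoImplicit false

namespace Pool.Agent.H951R5.PE

open Finset Filter NumberField Pool.Agent.H38R2.CG Pool.Agent.H951R5.AR
open scoped Classical

variable {K : Type} [Field K] [NumberField K] {D : ℕ}

/-- the smoothed number of x with x A = B and log(σx/τx) near t -/
noncomputable def TAB (e : Emb K D) (A B : Ideal (𝓞 K)) (t : ℝ) : ℝ :=
  ∑ᶠ x ∈ XAB e A B, phi (Real.log (e.σ x / e.τ x) - t)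

theorem phi_neg (t : ℝ) : phi (-t) = phi t := by
  unfold phi
  rw [abs_neg]

theorem phi_nonneg (t : ℝ) : 0 ≤ phi t := le_max_left _ _

theorem KAB_symm (e : Emb K D) (A B : Ideal (𝓞 K)) : KAB e A B = KAB e B A := by
  unfold KAB
  refine finsum_mem_eq_of_bijOn (fun x => x⁻¹) ⟨?_, ?_, ?_⟩ ?_
  · intro x hx
    exact (XAB_inv e hx).1
  · intro x _ y _ h
    exact inv_injective h
  · intro x hx
    exact ⟨x⁻¹, (XAB_inv e hx).1, inv_inv x⟩
  · intro x hx
    have h1 : Real.log (e.σ x⁻¹ / e.τ x⁻¹) = -Real.log (e.σ x / e.τ x) := by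
      rw [map_inv₀, map_inv₀]
      have h5 : (e.σ x)⁻¹ / (e.τ x)⁻¹ = (e.σ x / e.τ x)⁻¹ := by
        field_simp
      rw [h5, Real.log_inv]
    simp only [h1, phi_neg]

theorem span_mul_inv {x y : K} (hy : y ≠ 0) :
    FractionalIdeal.spanSingleton (nonZeroDivisors (𝓞 K)) x =
      FractionalIdeal.spanSingleton (nonZeroDivisors (𝓞 K)) y *
        FractionalIdeal.spanSingleton (nonZeroDivisors (𝓞 K)) (x / y) := by
  rw [FractionalIdeal.spanSingleton_mul_spanSingleton, mul_div_cancel₀ _ hy]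

theorem span_ne {y : K} (hy : y ≠ 0) :
    FractionalIdeal.spanSingleton (nonZeroDivisors (𝓞 K)) y ≠ 0 := by
  rw [Ne, FractionalIdeal.spanSingleton_eq_zero_iff]
  exact hy

/-- shift by a totally positive element -/
theorem TAB_shift (e : Emb K D) (A I : Ideal (𝓞 K)) (y : 𝓞 K) (h1 : 0 < e.σ (y : K))
    (h2 : 0 < e.τ (y : K)) :
    KAB e A (Ideal.span {y} * I) = TAB e A I (-Real.log (e.σ (y : K) / e.τ (y : K))) := by
  have hy0 : (y : K) ≠ 0 := N5ah.ne_zero_of_pos e h1
  have hco : ((Ideal.span {y} * I : Ideal (𝓞 K)) : FractionalIdeal (nonZeroDivisors (𝓞 K)) K) =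
      FractionalIdeal.spanSingleton (nonZeroDivisors (𝓞 K)) (y : K) * I := by
    rw [FractionalIdeal.coeIdeal_mul, FractionalIdeal.coeIdeal_span_singleton]
  have hiff : ∀ x : K, 0 < e.σ x → 0 < e.τ x →
      (x ∈ XAB e A (Ideal.span {y} * I) ↔ x / (y : K) ∈ XAB e A I) := by
    intro x hx1 hx2
    have h3 : 0 < e.σ (x / (y : K)) := by rw [map_div₀]; exact div_pos hx1 h1
    have h4 : 0 < e.τ (x / (y : K)) := by rw [map_div₀]; exact div_pos hx2 h2
    unfold XAB
    simp only [Set.mem_ofPred_eq, hx1, hx2, h3, h4, true_and, hco]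
    rw [span_mul_inv (x := x) hy0, mul_assoc]
    constructor
    · intro h
      exact mul_left_cancel₀ (span_ne hy0) h
    · intro h
      rw [h]
  unfold KAB TAB
  refine finsum_mem_eq_of_bijOn (fun x => x / (y : K)) ⟨?_, ?_, ?_⟩ ?_
  · intro x hx
    exact (hiff x hx.1 hx.2.1).1 hx
  · intro x _ z _ h
    exact (div_left_inj' hy0).1 h
  · intro x hx
    refine ⟨x * y, ?_, mul_div_cancel_right₀ _ hy0⟩
    have h3 : 0 < e.σ (x * (y : K)) := by rw [map_mul]; exact mul_pos hx.1 h1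
    have h4 : 0 < e.τ (x * (y : K)) := by rw [map_mul]; exact mul_pos hx.2.1 h2
    rw [hiff _ h3 h4, mul_div_cancel_right₀ _ hy0]
    exact hx
  · intro x hx
    rw [N5ah.log_div e hx.1 hx.2.1 h1 h2]
    congr 1
    ring

/-- cancelling the norm -/
theorem KAB_cancel (h2 : Module.finrank ℚ K = 2) (e : Emb K D) (A I B : Ideal (𝓞 K))
    (hB : B ≠ ⊥) : KAB e A (I * cj B) = TAB e (A * B) I 0 := by
  have hB0 : Ideal.absNorm B ≠ 0 := by
    rw [Ne, Ideal.absNorm_eq_zero_iff]
    exact hB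
  have hcB := (cj_spec h2 B hB).1
  set n : ℕ := Ideal.absNorm B with hn
  have hnpos : (0 : ℝ) < n := by exact_mod_cast Nat.pos_of_ne_zero hB0
  have hnK : (n : K) ≠ 0 := by exact_mod_cast hB0
  have hB' : (B : FractionalIdeal (nonZeroDivisors (𝓞 K)) K) ≠ 0 :=
    FractionalIdeal.coeIdeal_ne_zero.2 hB
  have h6 : (B : FractionalIdeal (nonZeroDivisors (𝓞 K)) K) *
      ((cj B : Ideal (𝓞 K)) : FractionalIdeal (nonZeroDivisors (𝓞 K)) K) =
      FractionalIdeal.spanSingleton (nonZeroDivisors (𝓞 K)) (n : K) := by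
    rw [← FractionalIdeal.coeIdeal_mul, hcB, FractionalIdeal.coeIdeal_span_singleton]
    congr 1
  have hiff : ∀ x : K, 0 < e.σ x → 0 < e.τ x →
      (x ∈ XAB e A (I * cj B) ↔ x / (n : K) ∈ XAB e (A * B) I) := by
    intro x hx1 hx2
    have h3 : 0 < e.σ (x / (n : K)) := by
      rw [map_div₀, map_natCast]; exact div_pos hx1 hnpos
    have h4 : 0 < e.τ (x / (n : K)) := by
      rw [map_div₀, map_natCast]; exact div_pos hx2 hnpos
    unfold XAB
    simp only [Set.mem_ofPred_eq, hx1, hx2, h3, h4, true_and, FractionalIdeal.coeIdeal_mul]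
    rw [span_mul_inv (x := x) hnK, ← h6]
    constructor
    · intro h
      have hc0 : ((cj B : Ideal (𝓞 K)) : FractionalIdeal (nonZeroDivisors (𝓞 K)) K) ≠ 0 :=
        FractionalIdeal.coeIdeal_ne_zero.2 (cj_ne h2 B hB)
      have h5 : ((cj B : Ideal (𝓞 K)) : FractionalIdeal (nonZeroDivisors (𝓞 K)) K) *
          (FractionalIdeal.spanSingleton (nonZeroDivisors (𝓞 K)) (x / (n : K)) *
            ((A : FractionalIdeal (nonZeroDivisors (𝓞 K)) K) * B)) =
          ((cj B : Ideal (𝓞 K)) : FractionalIdeal (nonZeroDivisors (𝓞 K)) K) * I := by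
        rw [mul_comm _ (I : FractionalIdeal (nonZeroDivisors (𝓞 K)) K), ← h]
        ring
      exact mul_left_cancel₀ hc0 h5
    · intro h
      rw [← h]
      ring
  unfold KAB TAB
  refine finsum_mem_eq_of_bijOn (fun x => x / (n : K)) ⟨?_, ?_, ?_⟩ ?_
  · intro x hx
    exact (hiff x hx.1 hx.2.1).1 hx
  · intro x _ z _ h
    exact (div_left_inj' hnK).1 h
  · intro x hx
    refine ⟨x * n, ?_, mul_div_cancel_right₀ _ hnK⟩
    have h3 : 0 < e.σ (x * (n : K)) := by
      rw [map_mul, map_natCast]; exact mul_pos hx.1 hnpos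
    have h4 : 0 < e.τ (x * (n : K)) := by
      rw [map_mul, map_natCast]; exact mul_pos hx.2.1 hnpos
    rw [hiff _ h3 h4, mul_div_cancel_right₀ _ hnK]
    exact hx
  · intro x hx
    have h5 : e.σ (x / (n : K)) / e.τ (x / (n : K)) = e.σ x / e.τ x := by
      rw [map_div₀, map_div₀, map_natCast, map_natCast]
      field_simp
    rw [h5, sub_zero]

end Pool.Agent.H951R5.PE
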