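import Mathlib

/-!
# Pointwise equidistribution in the narrow Arakelov class group of a real quadratic field:
definitions
-/

set_option autoImplicit false

namespace Pool.Agent.H951R5.PE

open NumberField
open scoped Classical

/-- The ideals whose norm is a product of `k` distinct primes of the interval (y, 2y]. -/
noncomputable def Fam (K : Type) [Field K] [NumberField K] (y k : ℕ) : Finset (Ideal (𝓞 K)) :=
  (((Finset.Ioc y (2 * y)).filter Nat.Prime).powersetCard k).biUnion fun s =>
    (Ideal.finite_setOfPred_absNorm_eq (S := 𝓞 K) (∏ p ∈ s, p)).toFinset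

/-- The totally positive `x` in `K` with `x C = I`. -/
def Rep (K : Type) [Field K] [NumberField K] (σ τ : K →+* ℝ) (C I : Ideal (𝓞 K)) : Set K :=
  {x : K | 0 < σ x ∧ 0 < τ x ∧ FractionalIdeal.spanSingleton (nonZeroDivisors (𝓞 K)) x *
    (C : FractionalIdeal (nonZeroDivisors (𝓞 K)) K) = I}

/-- The number of the triples (A, B, x) with A, B in the family, x totally positive, x A B = I
and u ≤ log(σx/τx) ≤ v. -/
noncomputable def count (K : Type) [Field K] [NumberField K] (σ τ : K →+* ℝ) (y k : ℕ)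
    (I : Ideal (𝓞 K)) (u v : ℝ) : ℕ :=
  ∑ A ∈ Fam K y k, ∑ B ∈ Fam K y k,
    (Rep K σ τ (A * B) I ∩ {x | u ≤ Real.log (σ x / τ x) ∧ Real.log (σ x / τ x) ≤ v}).ncard

/-- The sum over the triples (A, B, x) with A, B in the family, x totally positive and x A B = I
of the weights max(0, 1 - |log(σx/τx) - t|). -/
noncomputable def smooth (K : Type) [Field K] [NumberField K] (σ τ : K →+* ℝ) (y k : ℕ)
    (I : Ideal (𝓞 K)) (t : ℝ) : ℝ :=
  ∑ A ∈ Fam K y k, ∑ B ∈ Fam K y k,
    ∑ᶠ x ∈ Rep K σ τ (A * B) I, max 0 (1 - |Real.log (σ x / τ x) - t|)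

/-- The expected value of `smooth`: the square of the number of members of the family divided
by four times the class number times the regulator. -/
noncomputable def expd (K : Type) [Field K] [NumberField K] (y k : ℕ) : ℝ :=
  ((Fam K y k).card : ℝ) ^ 2 / (4 * (classNumber K : ℝ) * Units.regulator K)

/-- Pointwise equidistribution: for every nonzero ideal I, all windows contain finitely many
triples, the weighted numbers of triples are within the factor 1 ± ε of the expected
value for every real t, and the number of triples in a window of length v - u is at least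
(1 - ε)(v - u - 2) and at most (1 + ε)(v - u + 2) times the expected value. -/
def PEqui (K : Type) [Field K] [NumberField K] (σ τ : K →+* ℝ) (y k : ℕ) (ε : ℝ) : Prop :=
  0 < expd K y k ∧ ∀ I : Ideal (𝓞 K), I ≠ ⊥ →
    (∀ A ∈ Fam K y k, ∀ B ∈ Fam K y k, ∀ u v : ℝ,
      (Rep K σ τ (A * B) I ∩
        {x | u ≤ Real.log (σ x / τ x) ∧ Real.log (σ x / τ x) ≤ v}).Finite) ∧
    (∀ t : ℝ, |smooth K σ τ y k I t - expd K y k| ≤ ε * expd K y k) ∧
    (∀ u v : ℝ, u < v →
      (1 - ε) * (v - u - 2) * expd K y k ≤ count K σ τ y k I u v ∧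
      (count K σ τ y k I u v : ℝ) ≤ (1 + ε) * (v - u + 2) * expd K y k)

/-- The property of the final theorem, for the field of the square root of `d`. -/
def GoodPE (a ε : ℝ) (d : ℕ) : Prop :=
  ∃ y k : ℕ, 2 * (y : ℝ) ≤ (Real.log d) ^ a ∧
    2 * (k : ℝ) ≤ Real.log d / Real.log (Real.log d) ∧
    ∀ (K : Type) [Field K] [NumberField K], Module.finrank ℚ K = 2 →
      (∃ x : K, x ^ 2 = (d : K)) → ∀ σ τ : K →+* ℝ, σ ≠ τ → PEqui K σ τ y k ε

/-- 100% of the squarefree integers. -/
def FinalPE : Prop := ∀ a ε : ℝ, 2 < a → 0 < ε → ε ≤ 1 →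
  Filter.Tendsto (fun X : ℕ =>
    (Nat.card {d : ℕ // 2 ≤ d ∧ d ≤ X ∧ Squarefree d ∧ ¬ GoodPE a ε d} : ℝ) / X)
    Filter.atTop (nhds 0)

/-- 100% of the primes. -/
def FinalPEP : Prop := ∀ a ε : ℝ, 2 < a → 0 < ε → ε ≤ 1 →
  Filter.Tendsto (fun X : ℕ =>
    (Nat.card {p : ℕ // p ≤ X ∧ p.Prime ∧ ¬ GoodPE a ε p} : ℝ) /
      (Nat.card {p : ℕ // p ≤ X ∧ p.Prime} : ℝ))
    Filter.atTop (nhds 0)

end Pool.Agent.H951R5.PE
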