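import Pool.Agent.H951R5.PE.Defs

/-!
# Pointwise equidistribution, with narrow ideal classes: definitions
-/

set_option autoImplicit false

namespace Pool.Agent.H951R5.PE

open NumberField
open scoped Classical

/-- The number of the pairs (A, B) of members of the family such that A B and I are in the same
narrow ideal class (x A B = I for some totally positive x in K). -/
noncomputable def npairs (K : Type) [Field K] [NumberField K] (σ τ : K →+* ℝ) (y k : ℕ)
    (I : Ideal (𝓞 K)) : ℕ :=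
  ((Fam K y k ×ˢ Fam K y k).filter (fun p => (Rep K σ τ (p.1 * p.2) I).Nonempty)).card

/-- Equidistribution in the narrow class group: the numbers `npairs` are all within the factor
1 ± ε of one positive number. -/
def NEqui (K : Type) [Field K] [NumberField K] (σ τ : K →+* ℝ) (y k : ℕ) (ε : ℝ) : Prop :=
  ∃ c : ℝ, 0 < c ∧ ∀ I : Ideal (𝓞 K), I ≠ ⊥ → |(npairs K σ τ y k I : ℝ) - c| ≤ ε * c

/-- The property of the final theorem, for the field of the square root of `d`. -/
def GoodPE2 (a ε : ℝ) (d : ℕ) : Prop :=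
  ∃ y k : ℕ, 2 * (y : ℝ) ≤ (Real.log d) ^ a ∧
    2 * (k : ℝ) ≤ Real.log d / Real.log (Real.log d) ∧
    ∀ (K : Type) [Field K] [NumberField K], Module.finrank ℚ K = 2 →
      (∃ x : K, x ^ 2 = (d : K)) → ∀ σ τ : K →+* ℝ, σ ≠ τ →
        PEqui K σ τ y k ε ∧ NEqui K σ τ y k ε

/-- 100% of the squarefree integers. -/
def FinalPE2 : Prop := ∀ a ε : ℝ, 2 < a → 0 < ε → ε < 1 →
  Filter.Tendsto (fun X : ℕ =>
    (Nat.card {d : ℕ // 2 ≤ d ∧ d ≤ X ∧ Squarefree d ∧ ¬ GoodPE2 a ε d} : ℝ) / X)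
    Filter.atTop (nhds 0)

/-- 100% of the primes. -/
def FinalPEP2 : Prop := ∀ a ε : ℝ, 2 < a → 0 < ε → ε < 1 →
  Filter.Tendsto (fun X : ℕ =>
    (Nat.card {p : ℕ // p ≤ X ∧ p.Prime ∧ ¬ GoodPE2 a ε p} : ℝ) /
      (Nat.card {p : ℕ // p ≤ X ∧ p.Prime} : ℝ))
    Filter.atTop (nhds 0)

end Pool.Agent.H951R5.PE
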