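import Pool.Agent.H38R2.CG.Stubs

/-!
# The volume: 2 √D L(1, χ_D) = 4 h R
-/

set_option autoImplicit false

namespace Pool.Agent.H951R5.PE

open Finset Filter NumberField Pool.Agent.H38R2.CG
open NumberField.Units NumberField.InfinitePlace
open scoped Classical

variable {K : Type} [Field K] [NumberField K]

set_option backward.isDefEq.respectTransparency false in
theorem tors_pm (h : 0 < nrRealPlaces K) (x : torsion K) :
    (x : (𝓞 K)ˣ) = 1 ∨ (x : (𝓞 K)ˣ) = -1 := by
  by_cases! hc : 2 < orderOf (x : (𝓞 K)ˣ)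
  · rw [← orderOf_units, ← orderOf_submonoid] at hc
    linarith [IsPrimitiveRoot.nrRealPlaces_eq_zero_of_two_lt hc (IsPrimitiveRoot.orderOf (x.1 : K))]
  · interval_cases hi : orderOf (x : (𝓞 K)ˣ)
    · linarith [orderOf_pos_iff.2 ((CommGroup.mem_torsion x.1).1 x.2)]
    · exact Or.intro_left _ (orderOf_eq_one_iff.1 hi)
    · rw [← orderOf_units, CharP.orderOf_eq_two_iff 0 (by decide)] at hi
      simp [← Units.val_inj, ← Units.val_inj, Units.val_neg, Units.val_one, hi]

theorem tors_two (h : 0 < nrRealPlaces K) : torsionOrder K = 2 := by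
  let := Fintype.ofFinite (torsion K)
  rw [torsionOrder, Nat.card_eq_fintype_card]
  refine (Finset.card_eq_two.2 ⟨1, ⟨-1, neg_one_mem_torsion⟩,
    by simp [← Subtype.coe_ne_coe], Finset.ext fun x ↦ ⟨fun _ ↦ ?_, fun _ ↦ Finset.mem_univ _⟩⟩)
  rw [Finset.mem_insert, Finset.mem_singleton, ← Subtype.val_inj, ← Subtype.val_inj]
  exact tors_pm h x

theorem real_pos (σ : K →+* ℝ) : 0 < nrRealPlaces K := by
  have h1 : ComplexEmbedding.IsReal (Complex.ofRealHom.comp σ) := by
    rw [ComplexEmbedding.isReal_iff]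
    ext x
    simp [ComplexEmbedding.conjugate_coe_eq]
  have h2 : IsReal (InfinitePlace.mk (Complex.ofRealHom.comp σ)) := ⟨_, h1, rfl⟩
  unfold nrRealPlaces
  exact Fintype.card_pos_iff.2 ⟨⟨_, h2⟩⟩

theorem vol_eq (hN3 : P_N3) {D : ℕ} (hD : IsFund D) (h2 : Module.finrank ℚ K = 2)
    (hK : NumberField.discr K = (D : ℤ)) (σ : K →+* ℝ) :
    2 * √(D : ℝ) * Lone D = 4 * (classNumber K : ℝ) * regulator K := by
  have hD1 : 1 < D := hD.1
  have hDr : (0 : ℝ) < D := by exact_mod_cast (by omega : 0 < D)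
  have hsq : 0 < √(D : ℝ) := Real.sqrt_pos.mpr hDr
  have hr := real_pos σ
  have hw := tors_two hr
  have hrank := InfinitePlace.card_add_two_mul_card_eq_rank K
  rw [h2] at hrank
  have hr1 : nrRealPlaces K = 2 := by omega
  have hr2 : nrComplexPlaces K = 0 := by omega
  have h3 := (hN3 K D hD h2 hK).2.1
  have h4 := (Ideal.tendsto_norm_le_div_atTop₀ K).comp tendsto_natCast_atTop_atTop
  have h5 := tendsto_nhds_unique h3 (h4.congr fun N => by simp [Function.comp])
  rw [h5, hw, hr1, hr2, hK]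
  have h6 : |((D : ℤ) : ℝ)| = (D : ℝ) := by
    rw [Int.cast_natCast]
    exact abs_of_nonneg hDr.le
  push_cast at h6 ⊢
  try rw [h6]
  field_simp
  ring

end Pool.Agent.H951R5.PE
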