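import Pool.Agent.H951R5.PE.Two

/-!
# Pointwise equidistribution: all points, and windows
-/

set_option autoImplicit false

namespace Pool.Agent.H951R5.PE

open Finset Filter NumberField Pool.Agent.H38R2.CG Pool.Agent.H951R5.AR
open scoped Classical

variable {K : Type} [Field K] [NumberField K] {D : ℕ}

/-- finiteness in every bounded window -/
theorem fin_win (hN4 : P_N4) (hD : IsFund D)
    (h2 : Module.finrank ℚ K = 2) (hK : NumberField.discr K = (D : ℤ)) (e : Emb K D)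
    (A B : Ideal (𝓞 K)) (hA : A ≠ ⊥) (u v : ℝ) :
    (XAB e A B ∩ {x | u ≤ Real.log (e.σ x / e.τ x) ∧ Real.log (e.σ x / e.τ x) ≤ v}).Finite := by
  rcases lt_or_ge v u with h | h
  · convert Set.finite_empty
    ext x
    simp only [Set.mem_inter_iff, Set.mem_ofPred_eq, Set.mem_empty_iff_false, iff_false]
    rintro ⟨-, h3, h4⟩
    linarith
  · refine ((hN4 K D hD h2 hK e A hA u (v + 1) (by linarith)).1 (Ideal.absNorm B)).subset ?_
    rintro x ⟨hx, h3, h4⟩
    refine ⟨hx.1, hx.2.1, h3, by linarith, N5ah.mem_inv_of_XAB e hA hx, ?_⟩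
    rw [← N5ah.norm_XAB e hx]

/-- totally positive integers with prescribed logarithm -/
theorem exists_dir' (hD : 1 < D) (e : Emb K D) (t ε : ℝ) (hε : 0 < ε) :
    ∃ y : 𝓞 K, 0 < e.σ (y : K) ∧ 0 < e.τ (y : K) ∧
      |Real.log (e.σ (y : K) / e.τ (y : K)) - t| ≤ ε := by
  have hDr : (1 : ℝ) < D := by exact_mod_cast hD
  set r : ℝ := √(D : ℝ) with hr
  have hr0 : 0 < r := Real.sqrt_pos.2 (by linarith)
  have hrD : r ≤ D := by
    rw [hr, Real.sqrt_le_left (by linarith)]
    nlinarith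
  set N : ℕ := 3 * D + ⌈4 * r / ε⌉₊ with hN
  have hN3 : 3 * (D : ℝ) ≤ N := by
    have : 3 * D ≤ N := by omega
    exact_mod_cast this
  have hN4 : 4 * r / ε ≤ N := by
    have h1 := Nat.le_ceil (4 * r / ε)
    have h2 : (⌈4 * r / ε⌉₊ : ℝ) ≤ N := by
      have : ⌈4 * r / ε⌉₊ ≤ N := by omega
      exact_mod_cast this
    linarith
  obtain ⟨y0, h1, h2⟩ := e.int2 (2 * N) 2 ⟨N - D, by ring⟩
  obtain ⟨y1, h3, h4⟩ := e.int2 (2 * N) (-2) ⟨N + D, by ring⟩
  set n : ℝ := (N : ℝ) with hn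
  have e1 : e.σ (y0 : K) = n + r := by rw [h1, ← hr]; push_cast; ring
  have e2 : e.τ (y0 : K) = n - r := by rw [h2, ← hr]; push_cast; ring
  have e3 : e.σ (y1 : K) = n - r := by rw [h3, ← hr]; push_cast; ring
  have e4 : e.τ (y1 : K) = n + r := by rw [h4, ← hr]; push_cast; ring
  have hn1 : 0 < n - r := by linarith
  have hn2 : 0 < n + r := by linarith
  set δ : ℝ := Real.log ((n + r) / (n - r)) with hδ
  have hδ0 : 0 < δ := by
    apply Real.log_pos
    rw [one_lt_div hn1]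
    linarith
  have hδ1 : δ ≤ ε := by
    have h5 : δ ≤ (n + r) / (n - r) - 1 := Real.log_le_sub_one_of_pos (by positivity)
    have h6 : (n + r) / (n - r) - 1 ≤ ε := by
      rw [sub_le_iff_le_add, div_le_iff₀ hn1]
      rw [div_le_iff₀ hε] at hN4
      nlinarith
    linarith
  set m : ℕ := ⌊|t| / δ⌋₊ with hm
  have hm1 : (m : ℝ) * δ ≤ |t| := by
    have := Nat.floor_le (show 0 ≤ |t| / δ by positivity)
    rwa [le_div_iff₀ hδ0] at this
  have hm2 : |t| < (m + 1) * δ := by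
    have := Nat.lt_floor_add_one (|t| / δ)
    rwa [div_lt_iff₀ hδ0] at this
  have key : ∀ y : 𝓞 K, 0 < e.σ (y : K) → 0 < e.τ (y : K) →
      0 < e.σ ((y ^ m : 𝓞 K) : K) ∧ 0 < e.τ ((y ^ m : 𝓞 K) : K) ∧
      Real.log (e.σ ((y ^ m : 𝓞 K) : K) / e.τ ((y ^ m : 𝓞 K) : K)) =
        m * Real.log (e.σ (y : K) / e.τ (y : K)) := by
    intro y ha hb
    have hc : ((y ^ m : 𝓞 K) : K) = (y : K) ^ m := by push_cast; rfl
    rw [hc, map_pow, map_pow]
    refine ⟨pow_pos ha m, pow_pos hb m, ?_⟩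
    rw [← div_pow, Real.log_pow]
  rcases le_total 0 t with ht | ht
  · obtain ⟨k1, k2, k3⟩ := key y0 (by rw [e1]; exact hn2) (by rw [e2]; exact hn1)
    refine ⟨y0 ^ m, k1, k2, ?_⟩
    rw [k3, e1, e2, ← hδ, abs_le]
    rw [abs_of_nonneg ht] at hm1 hm2
    constructor <;> nlinarith
  · obtain ⟨k1, k2, k3⟩ := key y1 (by rw [e3]; exact hn1) (by rw [e4]; exact hn2)
    refine ⟨y1 ^ m, k1, k2, ?_⟩
    have e5 : Real.log ((n - r) / (n + r)) = -δ := by
      rw [hδ, ← Real.log_inv, inv_div]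
    rw [k3, e3, e4, e5, abs_le]
    rw [abs_of_nonpos ht] at hm1 hm2
    constructor <;> nlinarith

theorem phi_far {t : ℝ} (h : 1 ≤ |t|) : phi t = 0 := by
  unfold phi
  exact max_eq_left (by linarith)

/-- on a bounded interval the sums are finite sums with a fixed index set -/
theorem TAB_eq (hN4 : P_N4) (hD : IsFund D)
    (h2 : Module.finrank ℚ K = 2) (hK : NumberField.discr K = (D : ℤ)) (e : Emb K D)
    (A B : Ideal (𝓞 K)) (hA : A ≠ ⊥) (u v t : ℝ) (h1 : u ≤ t - 1) (h3 : t + 1 ≤ v) :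
    TAB e A B t = ∑ x ∈ (fin_win hN4 hD h2 hK e A B hA u v).toFinset,
      phi (Real.log (e.σ x / e.τ x) - t) := by
  unfold TAB
  refine finsum_mem_eq_sum_of_subset _ ?_ ?_
  · rintro x ⟨hx1, hx2⟩
    rw [Finset.mem_coe, Set.Finite.mem_toFinset]
    refine ⟨hx1, ?_⟩
    by_contra hcon
    apply hx2
    refine phi_far ?_
    by_contra h
    push Not at h
    rw [abs_lt] at h
    apply hcon
    show u ≤ Real.log (e.σ x / e.τ x) ∧ Real.log (e.σ x / e.τ x) ≤ v
    constructor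
    · linarith [h.1]
    · linarith [h.2]
  · intro x hx
    rw [Finset.mem_coe, Set.Finite.mem_toFinset] at hx
    exact hx.1

theorem phi_cont : Continuous phi := by
  unfold phi
  fun_prop

theorem TAB_cont (hN4 : P_N4) (hD : IsFund D)
    (h2 : Module.finrank ℚ K = 2) (hK : NumberField.discr K = (D : ℤ)) (e : Emb K D)
    (A B : Ideal (𝓞 K)) (hA : A ≠ ⊥) : Continuous (TAB e A B) := by
  rw [continuous_iff_continuousAt]
  intro t
  have h4 : ContinuousAt (fun t' => ∑ x ∈ (fin_win hN4 hD h2 hK e A B hA (t - 2) (t + 2)).toFinset,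
      phi (Real.log (e.σ x / e.τ x) - t')) t := by
    refine Continuous.continuousAt ?_
    refine continuous_finsetSum _ fun x _ => ?_
    exact phi_cont.comp (continuous_const.sub continuous_id)
  refine h4.congr ?_
  have h5 : Set.Ioo (t - 1) (t + 1) ∈ nhds t := Ioo_mem_nhds (by linarith) (by linarith)
  filter_upwards [h5] with t' ht'
  exact (TAB_eq hN4 hD h2 hK e A B hA (t - 2) (t + 2) t' (by linarith [ht'.1])
    (by linarith [ht'.2])).symm

theorem RR_cont (hN4 : P_N4) (hD : IsFund D)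
    (h2 : Module.finrank ℚ K = 2) (hK : NumberField.discr K = (D : ℤ)) (e : Emb K D)
    (S : Finset (Finset ℕ)) (hS : ∀ s ∈ S, ∀ p ∈ s, p.Prime ∧ p ≠ 2)
    (I : Ideal (𝓞 K)) : Continuous (RR e S I) := by
  have hne0 : ∀ s ∈ S, ∀ A ∈ NFh.U K (prodS s), A ≠ ⊥ := by
    intro s hs A hA h0
    have h1 := NFh.mem_U.mp hA
    rw [h0, Ideal.absNorm_bot] at h1
    exact (NFh.prodS_pos fun p hp => (hS s hs p hp).1).ne h1
  unfold RR
  refine continuous_finsetSum _ fun s hs => continuous_finsetSum _ fun A hA =>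
    continuous_finsetSum _ fun s' hs' => continuous_finsetSum _ fun B hB => ?_
  exact TAB_cont hN4 hD h2 hK e _ _ (mul_ne_zero (hne0 s hs A hA) (hne0 s' hs' B hB))

/-- the value at every point -/
theorem RR_all (hKF : P_KF) (hN4 : P_N4) (hN5b : P_N5b) (hN1 : P_N1) (hN3 : P_N3) (hN5 : P_N5)
    (hN6 : P_N6) (hD : IsFund D)
    (h2 : Module.finrank ℚ K = 2) (hK : NumberField.discr K = (D : ℤ)) (e : Emb K D)
    (S : Finset (Finset ℕ))
    (hf : ∀ s ∈ S, ∀ p ∈ s, p.Prime ∧ p ≠ 2) (I : Ideal (𝓞 K)) (hI : I ≠ ⊥) (t : ℝ) :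
    2 * (MD D S (fun _ => 1)) ^ 2 ≤ 2 * √(D : ℝ) * Lone D * (SD D S (fun _ => 1) + RR e S I t) ∧
    RR e S I t ≤ SD D S (fun _ => 1) := by
  have hcont := RR_cont hN4 hD h2 hK e S hf I
  have hclosed : IsClosed {t : ℝ | 2 * (MD D S (fun _ => 1)) ^ 2 ≤
      2 * √(D : ℝ) * Lone D * (SD D S (fun _ => 1) + RR e S I t) ∧
      RR e S I t ≤ SD D S (fun _ => 1)} := by
    refine IsClosed.inter ?_ ?_
    · exact isClosed_le continuous_const (continuous_const.mul (continuous_const.add hcont))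
    · exact isClosed_le hcont continuous_const
  have hmem : t ∈ closure {t : ℝ | 2 * (MD D S (fun _ => 1)) ^ 2 ≤
      2 * √(D : ℝ) * Lone D * (SD D S (fun _ => 1) + RR e S I t) ∧
      RR e S I t ≤ SD D S (fun _ => 1)} := by
    rw [Metric.mem_closure_iff]
    intro ε hε
    obtain ⟨y, hy1, hy2, hy3⟩ := exists_dir' hD.1 e (-t) (ε / 2) (by positivity)
    have hy0 : (y : K) ≠ 0 := N5ah.ne_zero_of_pos e hy1
    have hy0' : y ≠ 0 := fun h => hy0 (by rw [h]; rfl)
    have hI' : Ideal.span {y} * I ≠ ⊥ :=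
      mul_ne_zero (by rwa [Ne, Ideal.zero_eq_bot, Ideal.span_singleton_eq_bot]) hI
    have hcore := core_two hKF hN5b hN1 hN3 hN5 hN6 hD h2 hK e S hf (Ideal.span {y} * I) hI'
    have hRR : RR e S (Ideal.span {y} * I) 0 =
        RR e S I (-Real.log (e.σ (y : K) / e.τ (y : K))) := by
      unfold RR
      refine Finset.sum_congr rfl fun s _ => Finset.sum_congr rfl fun A _ =>
        Finset.sum_congr rfl fun s' _ => Finset.sum_congr rfl fun B _ => ?_
      rw [← TAB_shift e (A * B) I y hy1 hy2]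
      unfold TAB KAB
      simp only [sub_zero]
    rw [hRR] at hcore
    refine ⟨-Real.log (e.σ (y : K) / e.τ (y : K)), hcore, ?_⟩
    rw [Real.dist_eq]
    have h5 : t - -Real.log (e.σ (y : K) / e.τ (y : K)) =
        Real.log (e.σ (y : K) / e.τ (y : K)) - -t := by ring
    rw [h5]
    linarith
  rw [hclosed.closure_eq] at hmem
  exact hmem

/-! ### windows -/

/-- the clamp function -/
noncomputable def cl (t : ℝ) : ℝ := max 0 (min 1 t)

theorem phi_cl (t : ℝ) : phi t = cl (t + 1) - cl t := by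
  unfold phi cl
  rcases le_total 0 t with h | h
  · rw [abs_of_nonneg h]
    rcases le_total t 1 with h1 | h1
    · rw [max_eq_right (by linarith : (0 : ℝ) ≤ 1 - t), min_eq_left (by linarith : (1 : ℝ) ≤ t + 1),
        min_eq_right h1, max_eq_right zero_le_one, max_eq_right h]
    · rw [max_eq_left (by linarith : 1 - t ≤ 0), min_eq_left (by linarith : (1 : ℝ) ≤ t + 1),
        min_eq_left h1]
      ring
  · rw [abs_of_nonpos h]
    rcases le_total (-1) t with h1 | h1
    · rw [max_eq_right (by linarith : (0 : ℝ) ≤ 1 - -t),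
        min_eq_right (by linarith : t + 1 ≤ (1 : ℝ)), max_eq_right (by linarith : 0 ≤ t + 1),
        min_eq_right (by linarith : t ≤ (1 : ℝ)), max_eq_left h]
      ring
    · rw [max_eq_left (by linarith : 1 - -t ≤ 0),
        min_eq_right (by linarith : t + 1 ≤ (1 : ℝ)), max_eq_left (by linarith : t + 1 ≤ 0),
        min_eq_right (by linarith : t ≤ (1 : ℝ)), max_eq_left h]
      ring

theorem sum_phi (n : ℕ) (s : ℝ) :
    ∑ j ∈ Finset.range n, phi (s - j) = cl (s + 1) - cl (s + 1 - n) := by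
  induction n with
  | zero => simp
  | succ n ih =>
    rw [Finset.sum_range_succ, ih, phi_cl]
    have e1 : s - (n : ℝ) + 1 = s + 1 - n := by ring
    have e2 : s - (n : ℝ) = s + 1 - ((n + 1 : ℕ) : ℝ) := by push_cast; ring
    rw [e1, e2]
    ring

theorem cl_nonneg (t : ℝ) : 0 ≤ cl t := le_max_left _ _
theorem cl_le (t : ℝ) : cl t ≤ 1 := max_le zero_le_one (min_le_left _ _)
theorem cl_zero {t : ℝ} (h : t ≤ 0) : cl t = 0 := by
  unfold cl
  rw [min_eq_right (by linarith : t ≤ 1), max_eq_left h]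
theorem cl_one {t : ℝ} (h : 1 ≤ t) : cl t = 1 := by
  unfold cl
  rw [min_eq_left h, max_eq_right zero_le_one]

end Pool.Agent.H951R5.PE
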