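import Pool.Agent.H951R5.PE.Defs
import Pool.Agent.H951R5.PE.Win
import Pool.Agent.H951R5.PE.Vol
import Pool.Agent.H951R5.AR.Fin

/-!
# Pointwise equidistribution: assembly
-/

set_option autoImplicit false

namespace Pool.Agent.H951R5.PE

open Finset Filter NumberField Pool.Agent.H38R2.CG Pool.Agent.H38R2.CG2 Pool.Agent.H38R2.CG3
open Pool.Agent.H951R5.AR Pool.Agent.H38R2.CG.AS1h Pool.Agent.H38R2.CG.FINh
open scoped Classical

/-- exchange the embeddings -/
noncomputable def swp {K : Type} [Field K] [NumberField K] {D : ℕ} (e : Emb K D) : Emb K D where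
  σ := e.τ
  τ := e.σ
  ne := e.ne.symm
  int1 x := by
    obtain ⟨u, v, h1, h2, h3⟩ := e.int1 x
    refine ⟨u, -v, ?_, ?_, ?_⟩
    · obtain ⟨c, hc⟩ := h1
      exact ⟨c + D * v, by linear_combination hc⟩
    · rw [h3]; push_cast; ring
    · rw [h2]; push_cast; ring
  int2 u v h := by
    obtain ⟨c, hc⟩ := h
    obtain ⟨x, h1, h2⟩ := e.int2 u (-v) ⟨c + D * v, by linear_combination hc⟩
    refine ⟨x, ?_, ?_⟩
    · rw [h2]; push_cast; ring
    · rw [h1]; push_cast; ring
  nrm x := by rw [e.nrm x, mul_comm]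

variable {K : Type} [Field K] [NumberField K] {D : ℕ}

theorem prodS_inj {s t : Finset ℕ} (hs : ∀ p ∈ s, p.Prime) (ht : ∀ p ∈ t, p.Prime)
    (h : prodS s = prodS t) : s = t := by
  have h1 := Nat.primeFactors_prod hs
  have h2 := Nat.primeFactors_prod ht
  unfold prodS at h
  rw [← h1, ← h2, h]

theorem sum_fam (y k : ℕ) (g : Ideal (𝓞 K) → ℝ) :
    ∑ A ∈ Fam K y k, g A = ∑ s ∈ (PP y).powersetCard k, ∑ A ∈ NFh.U K (prodS s), g A := by
  unfold Fam
  rw [Finset.sum_biUnion]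
  · rfl
  · intro s hs t ht hst
    rw [Finset.mem_coe, Finset.mem_powersetCard] at hs ht
    have hp : ∀ {s : Finset ℕ}, s ⊆ (Finset.Ioc y (2 * y)).filter Nat.Prime →
        ∀ p ∈ s, p.Prime := fun h p hp => (Finset.mem_filter.1 (h hp)).2
    rw [Function.onFun, Finset.disjoint_left]
    intro A hA hA'
    rw [Set.Finite.mem_toFinset] at hA hA'
    apply hst
    refine prodS_inj (hp hs.1) (hp ht.1) ?_
    unfold prodS
    exact (hA.symm.trans hA')

theorem MD_fam (hN1 : P_N1) (hD : IsFund D) (h2 : Module.finrank ℚ K = 2)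
    (hK : NumberField.discr K = (D : ℤ)) (y k : ℕ) (hy : 2 ≤ y) :
    MD D ((PP y).powersetCard k) (fun _ => 1) = ((Fam K y k).card : ℝ) := by
  have h := sum_fam (K := K) y k (fun _ => 1)
  rw [Finset.sum_const, nsmul_eq_mul, mul_one] at h
  rw [h]
  unfold MD
  refine Finset.sum_congr rfl fun s hs => ?_
  rw [Finset.sum_const, nsmul_eq_mul, mul_one, one_mul]
  have hs' : ∀ p ∈ s, p.Prime ∧ p ≠ 2 := by
    intro p hp
    have h3 := (Finset.mem_powersetCard.1 hs).1 hp
    simp only [PP, mem_filter, mem_Ioc] at h3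
    exact ⟨h3.2, by omega⟩
  have h1 := hN1 K D hD h2 hK s hs'
  have h3 : ((NFh.U K (prodS s)).card : ℤ) = ∏ p ∈ s, (1 + chi D p) := by
    rw [← h1, ← NFh.card_U]
  have h4 : (((NFh.U K (prodS s)).card : ℤ) : ℝ) = ((∏ p ∈ s, (1 + chi D p) : ℤ) : ℝ) := by
    rw [h3]
  push_cast at h4
  exact h4.symm

theorem smooth_eq (e : Emb K D) (y k : ℕ) (I : Ideal (𝓞 K)) (t : ℝ) :
    smooth K e.σ e.τ y k I t = RR e ((PP y).powersetCard k) I t := by
  unfold smooth RR
  rw [sum_fam y k (fun A => ∑ B ∈ Fam K y k,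
    ∑ᶠ x ∈ Rep K e.σ e.τ (A * B) I, max 0 (1 - |Real.log (e.σ x / e.τ x) - t|))]
  refine Finset.sum_congr rfl fun s _ => Finset.sum_congr rfl fun A _ => ?_
  rw [sum_fam y k (fun B =>
    ∑ᶠ x ∈ Rep K e.σ e.τ (A * B) I, max 0 (1 - |Real.log (e.σ x / e.τ x) - t|))]
  rfl

/-- the counting bounds for one pair of ideals -/
theorem count_pair (hN4 : P_N4) (hD : IsFund D)
    (h2 : Module.finrank ℚ K = 2) (hK : NumberField.discr K = (D : ℤ)) (e : Emb K D)
    (A B : Ideal (𝓞 K)) (hA : A ≠ ⊥) (u v : ℝ) (huv : u < v) :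
    ((XAB e A B ∩ {x | u ≤ Real.log (e.σ x / e.τ x) ∧
      Real.log (e.σ x / e.τ x) ≤ v}).ncard : ℝ) ≤
      ∑ j ∈ Finset.range (⌊v - u⌋₊ + 2), TAB e A B (u + j) ∧
    ∑ j ∈ Finset.range (⌊v - u⌋₊ - 1), TAB e A B (u + 1 + j) ≤
      ((XAB e A B ∩ {x | u ≤ Real.log (e.σ x / e.τ x) ∧
        Real.log (e.σ x / e.τ x) ≤ v}).ncard : ℝ) := by
  have hfl1 : (⌊v - u⌋₊ : ℝ) ≤ v - u := Nat.floor_le (by linarith)
  have hfl2 : v - u < ⌊v - u⌋₊ + 1 := Nat.lt_floor_add_one _
  set n : ℕ := ⌊v - u⌋₊ with hn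
  have hfin := fin_win hN4 hD h2 hK e A B hA u v
  set W := hfin.toFinset with hW
  have hWm : ∀ x, x ∈ W ↔ x ∈ XAB e A B ∧ u ≤ Real.log (e.σ x / e.τ x) ∧
      Real.log (e.σ x / e.τ x) ≤ v := by
    intro x
    rw [hW, Set.Finite.mem_toFinset]
    rfl
  have hcard : ((XAB e A B ∩ {x | u ≤ Real.log (e.σ x / e.τ x) ∧
      Real.log (e.σ x / e.τ x) ≤ v}).ncard : ℝ) = ∑ x ∈ W, (1 : ℝ) := by
    rw [Set.ncard_eq_toFinset_card _ hfin]
    simp [hW]
  rw [hcard]
  constructor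
  · set Z := (fin_win hN4 hD h2 hK e A B hA (u - 1) (u + n + 2)).toFinset with hZ
    have hZm : ∀ x, x ∈ Z ↔ x ∈ XAB e A B ∧ u - 1 ≤ Real.log (e.σ x / e.τ x) ∧
        Real.log (e.σ x / e.τ x) ≤ u + n + 2 := by
      intro x
      rw [hZ, Set.Finite.mem_toFinset]
      rfl
    have h1 : ∑ j ∈ Finset.range (n + 2), TAB e A B (u + j) =
        ∑ x ∈ Z, ∑ j ∈ Finset.range (n + 2), phi ((Real.log (e.σ x / e.τ x) - u) - j) := by
      rw [Finset.sum_comm]
      refine Finset.sum_congr rfl fun j hj => ?_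
      have hj' : (j : ℝ) ≤ n + 1 := by
        have := Finset.mem_range.1 hj
        have h3 : j ≤ n + 1 := by omega
        exact_mod_cast h3
      rw [TAB_eq hN4 hD h2 hK e A B hA (u - 1) (u + n + 2) (u + j)
        (by linarith [(Nat.cast_nonneg j : (0 : ℝ) ≤ j)]) (by linarith)]
      refine Finset.sum_congr rfl fun x _ => ?_
      congr 1
      ring
    rw [h1]
    have hsub : W ⊆ Z := by
      intro x hx
      rw [hWm] at hx
      rw [hZm]
      exact ⟨hx.1, by linarith [hx.2.1], by linarith [hx.2.2]⟩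
    refine le_trans ?_ (Finset.sum_le_sum_of_subset_of_nonneg hsub
      fun x _ _ => Finset.sum_nonneg fun j _ => phi_nonneg _)
    refine Finset.sum_le_sum fun x hx => ?_
    rw [hWm] at hx
    rw [sum_phi, cl_one (by linarith [hx.2.1]), cl_zero (by push_cast; linarith [hx.2.2])]
    linarith
  · set Z := (fin_win hN4 hD h2 hK e A B hA u (v + 2)).toFinset with hZ
    have hZm : ∀ x, x ∈ Z ↔ x ∈ XAB e A B ∧ u ≤ Real.log (e.σ x / e.τ x) ∧
        Real.log (e.σ x / e.τ x) ≤ v + 2 := by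
      intro x
      rw [hZ, Set.Finite.mem_toFinset]
      rfl
    have h1 : ∑ j ∈ Finset.range (n - 1), TAB e A B (u + 1 + j) =
        ∑ x ∈ Z, ∑ j ∈ Finset.range (n - 1),
          phi ((Real.log (e.σ x / e.τ x) - u - 1) - j) := by
      rw [Finset.sum_comm]
      refine Finset.sum_congr rfl fun j hj => ?_
      have hj' : (j : ℝ) + 2 ≤ n := by
        have := Finset.mem_range.1 hj
        have h3 : j + 2 ≤ n := by omega
        exact_mod_cast h3
      rw [TAB_eq hN4 hD h2 hK e A B hA u (v + 2) (u + 1 + j)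
        (by linarith [(Nat.cast_nonneg j : (0 : ℝ) ≤ j)]) (by linarith)]
      refine Finset.sum_congr rfl fun x _ => ?_
      congr 1
      ring
    rw [h1]
    have hsub : W ⊆ Z := by
      intro x hx
      rw [hWm] at hx
      rw [hZm]
      exact ⟨hx.1, hx.2.1, by linarith [hx.2.2]⟩
    have hzero : ∀ x ∈ Z, x ∉ W → ∑ j ∈ Finset.range (n - 1),
          phi ((Real.log (e.σ x / e.τ x) - u - 1) - j) = 0 := by
      intro x hx hx'
      rw [hZm] at hx
      have h3 : v < Real.log (e.σ x / e.τ x) := by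
        by_contra h
        push Not at h
        exact hx' ((hWm x).2 ⟨hx.1, hx.2.1, h⟩)
      have h4 : ((n - 1 : ℕ) : ℝ) ≤ Real.log (e.σ x / e.τ x) - u - 1 + 1 - 1 ∨ n - 1 = 0 := by
        rcases Nat.eq_zero_or_pos (n - 1) with h5 | h5
        · exact Or.inr h5
        · left
          have h6 : ((n - 1 : ℕ) : ℝ) = n - 1 := by
            rw [Nat.cast_sub (by omega)]
            simp
          rw [h6]
          linarith
      rcases h4 with h4 | h4
      · rw [sum_phi, cl_one (by linarith [(Nat.cast_nonneg (n - 1) : (0 : ℝ) ≤ ((n - 1 : ℕ) : ℝ))]),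
          cl_one (by linarith)]
        ring
      · rw [h4]
        simp
    rw [← Finset.sum_subset hsub hzero]
    refine Finset.sum_le_sum fun x hx => ?_
    rw [sum_phi]
    linarith [cl_le (Real.log (e.σ x / e.τ x) - u - 1 + 1),
      cl_nonneg (Real.log (e.σ x / e.τ x) - u - 1 + 1 - ((n - 1 : ℕ) : ℝ))]

end Pool.Agent.H951R5.PE
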