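import Pool.Agent.H951R5.PE.Fin

/-!
# Pointwise equidistribution: the theorems
-/

set_option autoImplicit false

namespace Pool.Agent.H951R5.PE

open Finset Filter NumberField Pool.Agent.H38R2.CG Pool.Agent.H38R2.CG2 Pool.Agent.H38R2.CG3
open Pool.Agent.H951R5.AR Pool.Agent.H38R2.CG.AS1h Pool.Agent.H38R2.CG.FINh
open scoped Classical

theorem pequi (hKF : P_KF) (hN4 : P_N4) (hN5b : P_N5b) (hN1 : P_N1) (hN3 : P_N3) (hN5 : P_N5)
    (hN6 : P_N6) {K : Type} [Field K] [NumberField K] {D : ℕ} (hD : IsFund D)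
    (h2 : Module.finrank ℚ K = 2) (hK : NumberField.discr K = (D : ℤ)) (e : Emb K D)
    (y k : ℕ) (hy : 2 ≤ y) (ε : ℝ) (hε : 0 < ε) (hε1 : ε ≤ 1)
    (hlt : 2 * √(D : ℝ) * Lone D * SD D ((PP y).powersetCard k) (fun _ => 1) <
      (1 + ε) * (MD D ((PP y).powersetCard k) (fun _ => 1)) ^ 2) :
    PEqui K e.σ e.τ y k ε := by
  set S := (PP y).powersetCard k with hS
  have hf : ∀ s ∈ S, ∀ p ∈ s, p.Prime ∧ p ≠ 2 := by
    intro s hs p hp
    have h3 := (Finset.mem_powersetCard.1 hs).1 hp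
    simp only [PP, mem_filter, mem_Ioc] at h3
    exact ⟨h3.2, by omega⟩
  have hM : MD D S (fun _ => 1) = ((Fam K y k).card : ℝ) := MD_fam hN1 hD h2 hK y k hy
  have hV := vol_eq hN3 hD h2 hK e.σ
  have hVpos : 0 < 2 * √(D : ℝ) * Lone D := by
    rw [hV]
    have h3 : 0 < (classNumber K : ℝ) := by exact_mod_cast classNumber_pos K
    have h4 := Units.regulator_pos K
    positivity
  set V : ℝ := 2 * √(D : ℝ) * Lone D with hVd
  set M : ℝ := MD D S (fun _ => 1) with hMd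
  have hall := fun (I : Ideal (𝓞 K)) (hI : I ≠ ⊥) (t : ℝ) =>
    RR_all hKF hN4 hN5b hN1 hN3 hN5 hN6 hD h2 hK e S hf I hI t
  have hM2 : 0 < M ^ 2 := by
    have h3 := hall ⊤ (by simp) 0
    have h4 : M ^ 2 ≤ V * SD D S (fun _ => 1) := by
      have h5 := mul_le_mul_of_nonneg_left h3.2 hVpos.le
      nlinarith [h3.1]
    by_contra hcon
    push Not at hcon
    nlinarith [sq_nonneg M]
  have hE : expd K y k = M ^ 2 / V := by
    unfold expd
    rw [← hM, ← hV]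
  have hEpos : 0 < expd K y k := by
    rw [hE]
    positivity
  set E : ℝ := expd K y k with hEd
  have hbound : ∀ (I : Ideal (𝓞 K)), I ≠ ⊥ → ∀ t : ℝ,
      (1 - ε) * E ≤ smooth K e.σ e.τ y k I t ∧ smooth K e.σ e.τ y k I t ≤ (1 + ε) * E := by
    intro I hI t
    rw [smooth_eq]
    obtain ⟨h3, h4⟩ := hall I hI t
    have h5 := mul_le_mul_of_nonneg_left h4 hVpos.le
    rw [hE, ← mul_div_assoc, ← mul_div_assoc, div_le_iff₀ hVpos, le_div_iff₀ hVpos]
    constructor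
    · nlinarith
    · nlinarith
  have hne : ∀ A ∈ Fam K y k, A ≠ ⊥ := by
    intro A hA h0
    unfold Fam at hA
    rw [Finset.mem_biUnion] at hA
    obtain ⟨s, hs, hA⟩ := hA
    rw [Set.Finite.mem_toFinset] at hA
    have hA' : Ideal.absNorm A = prodS s := hA
    rw [h0, Ideal.absNorm_bot] at hA'
    exact (NFh.prodS_pos fun p hp => (hf s hs p hp).1).ne hA'
  refine ⟨hEpos, fun I hI => ⟨?_, ?_, ?_⟩⟩
  · intro A hA B hB u v
    exact fin_win hN4 hD h2 hK e (A * B) I (mul_ne_zero (hne A hA) (hne B hB)) u v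
  · intro t
    obtain ⟨h3, h4⟩ := hbound I hI t
    rw [abs_le]
    constructor <;> linarith
  · intro u v huv
    have hfl1 : (⌊v - u⌋₊ : ℝ) ≤ v - u := Nat.floor_le (by linarith)
    have hfl2 : v - u < ⌊v - u⌋₊ + 1 := Nat.lt_floor_add_one _
    have hpair := fun A (hA : A ∈ Fam K y k) B (hB : B ∈ Fam K y k) =>
      count_pair hN4 hD h2 hK e (A * B) I (mul_ne_zero (hne A hA) (hne B hB)) u v huv
    have hsm : ∀ t, smooth K e.σ e.τ y k I t =
        ∑ A ∈ Fam K y k, ∑ B ∈ Fam K y k, TAB e (A * B) I t := fun t => rfl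
    have hcount : (count K e.σ e.τ y k I u v : ℝ) =
        ∑ A ∈ Fam K y k, ∑ B ∈ Fam K y k, ((XAB e (A * B) I ∩
          {x | u ≤ Real.log (e.σ x / e.τ x) ∧ Real.log (e.σ x / e.τ x) ≤ v}).ncard : ℝ) := by
      unfold count
      push_cast
      rfl
    have hswap : ∀ (m : ℕ) (c : ℝ), ∑ A ∈ Fam K y k, ∑ B ∈ Fam K y k,
        ∑ j ∈ Finset.range m, TAB e (A * B) I (c + j) =
        ∑ j ∈ Finset.range m, smooth K e.σ e.τ y k I (c + j) := by
      intro m c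
      have h3 : ∀ A ∈ Fam K y k, ∑ B ∈ Fam K y k,
          ∑ j ∈ Finset.range m, TAB e (A * B) I (c + j) =
          ∑ j ∈ Finset.range m, ∑ B ∈ Fam K y k, TAB e (A * B) I (c + j) :=
        fun A _ => Finset.sum_comm
      rw [Finset.sum_congr rfl h3, Finset.sum_comm]
      exact Finset.sum_congr rfl fun j _ => (hsm _).symm
    rw [hcount]
    constructor
    · refine le_trans ?_ (Finset.sum_le_sum fun A hA => Finset.sum_le_sum fun B hB =>
        (hpair A hA B hB).2)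
      rw [hswap]
      have h3 : ∑ _j ∈ Finset.range (⌊v - u⌋₊ - 1), (1 - ε) * E ≤
          ∑ j ∈ Finset.range (⌊v - u⌋₊ - 1), smooth K e.σ e.τ y k I (u + 1 + j) :=
        Finset.sum_le_sum fun j _ => (hbound I hI _).1
      refine le_trans ?_ h3
      rw [Finset.sum_const, Finset.card_range, nsmul_eq_mul]
      have h4 : v - u - 2 ≤ ((⌊v - u⌋₊ - 1 : ℕ) : ℝ) := by
        rcases Nat.eq_zero_or_pos ⌊v - u⌋₊ with h5 | h5
        · rw [h5] at hfl2 ⊢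
          push_cast at hfl2 ⊢
          simp
          linarith
        · rw [Nat.cast_sub h5]
          push_cast
          linarith
      have h6 : 0 ≤ (1 - ε) * E := mul_nonneg (by linarith) hEpos.le
      nlinarith
    · refine le_trans (Finset.sum_le_sum fun A hA => Finset.sum_le_sum fun B hB =>
        (hpair A hA B hB).1) ?_
      rw [hswap]
      have h3 : ∑ j ∈ Finset.range (⌊v - u⌋₊ + 2), smooth K e.σ e.τ y k I (u + j) ≤
          ∑ _j ∈ Finset.range (⌊v - u⌋₊ + 2), (1 + ε) * E :=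
        Finset.sum_le_sum fun j _ => (hbound I hI _).2
      refine h3.trans ?_
      rw [Finset.sum_const, Finset.card_range, nsmul_eq_mul]
      have h6 : 0 ≤ (1 + ε) * E := mul_nonneg (by linarith) hEpos.le
      push_cast
      nlinarith

/-- outside the exceptional discriminants -/
theorem pequi_of_not_bd (hKF : P_KF) (hN4 : P_N4) (hN5b : P_N5b) (hN0 : P_N0) (hN1 : P_N1)
    (hN3 : P_N3) (hN5 : P_N5) (hN6 : P_N6)
    (a ε : ℝ) (hε : 0 < ε) (hε1 : ε ≤ 1) (X D : ℕ) (hy : 2 ≤ yA a X) (hD : IsFund D)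
    (K : Type) [Field K] [NumberField K] (h2 : Module.finrank ℚ K = 2)
    (hK : NumberField.discr K = (D : ℤ)) (hb : ¬ Bd a ε X D) (σ τ : K →+* ℝ) (hne : σ ≠ τ) :
    PEqui K σ τ (yA a X) (kA a X) ε := by
  obtain ⟨e⟩ := hN0 K D hD h2 hK
  have hlt : 2 * √(D : ℝ) * Lone D * SD D ((PP (yA a X)).powersetCard (kA a X)) (fun _ => 1) <
      (1 + ε) * (MD D ((PP (yA a X)).powersetCard (kA a X)) (fun _ => 1)) ^ 2 := by
    unfold Bd at hb
    push Not at hb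
    exact hb
  rcases emb_two h2 e.σ e.τ σ e.ne with h3 | h3
  · rcases emb_two h2 e.σ e.τ τ e.ne with h4 | h4
    · exact absurd (h3.trans h4.symm) hne
    · rw [h3, h4]
      exact pequi hKF hN4 hN5b hN1 hN3 hN5 hN6 hD h2 hK e _ _ hy ε hε hε1 hlt
  · rcases emb_two h2 e.σ e.τ τ e.ne with h4 | h4
    · rw [h3, h4]
      exact pequi hKF hN4 hN5b hN1 hN3 hN5 hN6 hD h2 hK (swp e) _ _ hy ε hε hε1 hlt
    · exact absurd (h3.trans h4.symm) hne

/-- the exceptional d have exceptional discriminants -/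
theorem exc_bd'' (hKF : P_KF) (hN4 : P_N4) (hN5b : P_N5b) (hN0 : P_N0) (hN0d : P_N0d)
    (hN1 : P_N1) (hN3 : P_N3) (hN5 : P_N5)
    (hN6 : P_N6) (a ε : ℝ) (ha : 2 < a) (hε : 0 < ε) (hε1 : ε ≤ 1) :
    ∃ X1 : ℕ, ∀ X : ℕ, X1 ≤ X → ∀ d : ℕ, 1 < d → Squarefree d → ¬ GoodPE a ε d → X < Dof d →
      Dof d ≤ 2 * X → IsFund (Dof d) ∧ Bd a ε X (Dof d) := by
  obtain ⟨X1, hX1⟩ := params a ha
  refine ⟨X1, fun X hX d hd1 hds hg hXD hDX => ?_⟩
  have hfund := isFund_Dof hd1 hds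
  refine ⟨hfund, ?_⟩
  have hd4 : (X : ℝ) / 4 ≤ d := by
    have h1 : X < 4 * d := lt_of_lt_of_le hXD (Dof_le d)
    have h2 : (X : ℝ) < 4 * d := by exact_mod_cast h1
    linarith
  have hd2 : (d : ℝ) ≤ 2 * X := by
    have h1 : d ≤ 2 * X := (le_Dof d).trans hDX
    exact_mod_cast h1
  obtain ⟨hy, hk, hy2⟩ := hX1 X hX d hd4 hd2
  by_contra hb
  apply hg
  refine ⟨yA a X, kA a X, hy, hk, ?_⟩
  intro K iF iN hrank hx σ τ hne
  have hdisc : NumberField.discr K = ((Dof d : ℕ) : ℤ) := by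
    rw [hN0d K d hd1 hds hrank hx]
    unfold Dof
    split_ifs <;> simp
  exact pequi_of_not_bd hKF hN4 hN5b hN0 hN1 hN3 hN5 hN6 a ε hε hε1 X (Dof d) hy2 hfund
    K hrank hdisc hb σ τ hne

/-- the theorem for all squarefree integers -/
theorem finalPE (hKF : P_KF) (hN4 : P_N4) (hN5b : P_N5b) (hN0 : P_N0) (hN0d : P_N0d)
    (hN1 : P_N1) (hN3 : P_N3) (hN5 : P_N5)
    (hN6 : P_N6) (ht : P2_TRIV) (hAS : P3_AS0) : FinalPE := by
  intro a ε ha hε hε1
  have hmain : Tendsto (fun X : ℕ =>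
      (((Finset.Icc 2 X).filter (fun d => Squarefree d ∧ ¬ GoodPE a ε d)).card : ℝ) / X)
      atTop (nhds 0) := by
    suffices hs : ∀ δ : ℝ, 0 < δ → ∃ η : ℝ, 0 < η ∧ η ≤ 1 ∧ ∃ X0 : ℕ, ∀ X ≥ X0,
        (((Finset.Ioc X ⌊(1 + η) * (X : ℝ)⌋₊).filter
          (fun D => ∃ d : ℕ, 1 < d ∧ Squarefree d ∧ ¬ GoodPE a ε d ∧ D = Dof d)).card : ℝ) ≤
          δ * η * X by
      have key := fin_all (fun d => ¬ GoodPE a ε d) hs
      convert key
    intro δ hδ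
    obtain ⟨η, hη, hη1, X0, hX0⟩ := short_all ht hAS a ha ε hε δ hδ
    obtain ⟨X1, hX1⟩ := exc_bd'' hKF hN4 hN5b hN0 hN0d hN1 hN3 hN5 hN6 a ε ha hε hε1
    refine ⟨η, hη, hη1, max X0 X1, fun X hX => ?_⟩
    refine le_trans ?_ (hX0 X (le_trans (le_max_left _ _) hX))
    have hsub : ((Finset.Ioc X ⌊(1 + η) * (X : ℝ)⌋₊).filter
          (fun D => ∃ d : ℕ, 1 < d ∧ Squarefree d ∧ ¬ GoodPE a ε d ∧ D = Dof d)) ⊆
        (Finset.Ioc X ⌊(1 + η) * (X : ℝ)⌋₊).filter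
          (fun D => IsFund D ∧ Bd a ε X D) := by
      intro D hD
      rw [Finset.mem_filter] at hD ⊢
      obtain ⟨hD1, d, hd1, hds, hg, rfl⟩ := hD
      refine ⟨hD1, ?_⟩
      refine hX1 X (le_trans (le_max_right _ _) hX) d hd1 hds hg (Finset.mem_Ioc.1 hD1).1 ?_
      have h1 := (Finset.mem_Ioc.1 hD1).2
      have h2 : ((⌊(1 + η) * (X : ℝ)⌋₊ : ℕ) : ℝ) ≤ (1 + η) * (X : ℝ) :=
        Nat.floor_le (by positivity)
      have h3 : (Dof d : ℝ) ≤ (⌊(1 + η) * (X : ℝ)⌋₊ : ℝ) := by exact_mod_cast h1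
      have h5 : (Dof d : ℝ) ≤ 2 * (X : ℝ) := by
        have : (0 : ℝ) ≤ X := by positivity
        nlinarith
      exact_mod_cast h5
    exact_mod_cast Finset.card_le_card hsub
  refine hmain.congr fun X => ?_
  congr 2
  symm
  refine Nat.subtype_card _ fun d => ?_
  rw [Finset.mem_filter, Finset.mem_Icc]
  tauto

/-- the theorem for primes -/
theorem finalPEP (hKF : P_KF) (hN4 : P_N4) (hN5b : P_N5b) (hN0 : P_N0) (hN0d : P_N0d)
    (hN1 : P_N1) (hN3 : P_N3) (hN5 : P_N5)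
    (hN6 : P_N6) (hNB : P_NB) (hBH : P2_BH) (hRC : P2_RC) (hAS : P3_AS0) :
    FinalPEP := by
  intro a ε ha hε hε1
  have hmain : Tendsto (fun X : ℕ =>
      (((Finset.Icc 2 X).filter (fun p => p.Prime ∧ ¬ GoodPE a ε p)).card : ℝ) /
        (((Finset.Icc 2 X).filter Nat.Prime).card : ℝ)) atTop (nhds 0) := by
    suffices hs : ∀ δ : ℝ, 0 < δ → ∃ η : ℝ, 0 < η ∧ η ≤ 1 ∧ ∃ X0 : ℕ, ∀ X ≥ X0,
        (((Finset.Ioc X ⌊(1 + η) * (X : ℝ)⌋₊).filter
          (fun D => ∃ p : ℕ, p.Prime ∧ ¬ GoodPE a ε p ∧ D = Dof p)).card : ℝ) ≤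
          δ * η * X / Real.log X by
      have key := fin_primes hNB (fun d => ¬ GoodPE a ε d) hs
      convert key
    intro δ hδ
    obtain ⟨η, hη, hη1, X0, hX0⟩ := short_primes hAS hBH hRC a ha ε hε δ hδ
    obtain ⟨X1, hX1⟩ := exc_bd'' hKF hN4 hN5b hN0 hN0d hN1 hN3 hN5 hN6 a ε ha hε hε1
    refine ⟨η, hη, hη1, max X0 X1, fun X hX => ?_⟩
    refine le_trans ?_ (hX0 X (le_trans (le_max_left _ _) hX))
    have hsub : ((Finset.Ioc X ⌊(1 + η) * (X : ℝ)⌋₊).filter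
          (fun D => ∃ p : ℕ, p.Prime ∧ ¬ GoodPE a ε p ∧ D = Dof p)) ⊆
        (Finset.Ioc X ⌊(1 + η) * (X : ℝ)⌋₊).filter
          (fun D => (∃ p : ℕ, p.Prime ∧ (D = p ∨ D = 4 * p)) ∧
            IsFund D ∧ Bd a ε X D) := by
      intro D hD
      rw [Finset.mem_filter] at hD ⊢
      obtain ⟨hD1, p, hp, hg, rfl⟩ := hD
      refine ⟨hD1, ⟨p, hp, ?_⟩, ?_⟩
      · unfold Dof
        split_ifs <;> simp
      refine hX1 X (le_trans (le_max_right _ _) hX) p hp.one_lt hp.squarefree hg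
        (Finset.mem_Ioc.1 hD1).1 ?_
      have h1 := (Finset.mem_Ioc.1 hD1).2
      have h2 : ((⌊(1 + η) * (X : ℝ)⌋₊ : ℕ) : ℝ) ≤ (1 + η) * (X : ℝ) :=
        Nat.floor_le (by positivity)
      have h3 : (Dof p : ℝ) ≤ (⌊(1 + η) * (X : ℝ)⌋₊ : ℝ) := by exact_mod_cast h1
      have h5 : (Dof p : ℝ) ≤ 2 * (X : ℝ) := by
        have : (0 : ℝ) ≤ X := by positivity
        nlinarith
      exact_mod_cast h5
    exact_mod_cast Finset.card_le_card hsub
  refine hmain.congr fun X => ?_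
  have e1 : (Nat.card {p : ℕ // p ≤ X ∧ p.Prime ∧ ¬ GoodPE a ε p}) =
      ((Finset.Icc 2 X).filter (fun p => p.Prime ∧ ¬ GoodPE a ε p)).card := by
    refine Nat.subtype_card _ fun p => ?_
    rw [Finset.mem_filter, Finset.mem_Icc]
    constructor
    · rintro ⟨⟨-, h2⟩, h3, h4⟩
      exact ⟨h2, h3, h4⟩
    · rintro ⟨h2, h3, h4⟩
      exact ⟨⟨h3.two_le, h2⟩, h3, h4⟩
  have e2 : (Nat.card {p : ℕ // p ≤ X ∧ p.Prime}) =
      ((Finset.Icc 2 X).filter Nat.Prime).card := by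
    refine Nat.subtype_card _ fun p => ?_
    rw [Finset.mem_filter, Finset.mem_Icc]
    constructor
    · rintro ⟨⟨-, h2⟩, h3⟩
      exact ⟨h2, h3⟩
    · rintro ⟨h2, h3⟩
      exact ⟨⟨h3.two_le, h2⟩, h3⟩
  rw [e1, e2]

end Pool.Agent.H951R5.PE
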