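import Pool.Agent.H951R5.PE.Nar
import Pool.Agent.H951R5.PE.Defs2

/-!
# Narrow ideal classes: the statement
-/

set_option autoImplicit false

namespace Pool.Agent.H951R5.PE

open Finset Filter NumberField Pool.Agent.H38R2.CG Pool.Agent.H951R5.AR
open scoped Classical

variable {K : Type} [Field K] [NumberField K] {D : ℕ}

theorem pair_count (e : Emb K D) (P : ℝ) (hP : 0 < P)
    (hGU : GU e = AddSubgroup.zmultiples P) (A B : Ideal (𝓞 K)) (hA : A ≠ ⊥) (hB : B ≠ ⊥)
    (L : ℝ) (hL : 0 ≤ L) (hne : (XAB e A B).Nonempty) :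
    |((XAB e A B ∩ {x | 0 ≤ Real.log (e.σ x / e.τ x) ∧
      Real.log (e.σ x / e.τ x) ≤ L}).ncard : ℝ) - L / P| ≤ 1 := by
  obtain ⟨x0, hx0⟩ := hne
  have hinj : Set.InjOn (gg e) (XAB e A B ∩ {x | 0 ≤ Real.log (e.σ x / e.τ x) ∧
      Real.log (e.σ x / e.τ x) ≤ L}) := fun x hx y hy h => gg_inj e hB hx.1 hy.1 h
  have himg : gg e '' (XAB e A B ∩ {x | 0 ≤ Real.log (e.σ x / e.τ x) ∧
      Real.log (e.σ x / e.τ x) ≤ L}) =
      {r : ℝ | r - gg e x0 ∈ AddSubgroup.zmultiples P ∧ 0 ≤ r ∧ r ≤ L} := by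
    have hc := coset e hA hx0
    ext r
    constructor
    · rintro ⟨x, ⟨hx, h1, h2⟩, rfl⟩
      have h3 : gg e x ∈ gg e '' XAB e A B := ⟨x, hx, rfl⟩
      rw [hc] at h3
      have h4 : gg e x - gg e x0 ∈ GU e := h3
      rw [hGU] at h4
      exact ⟨h4, h1, h2⟩
    · rintro ⟨h1, h2, h3⟩
      rw [← hGU] at h1
      have h4 : r ∈ {r | r - gg e x0 ∈ GU e} := h1
      rw [← hc] at h4
      obtain ⟨x, hx, rfl⟩ := h4
      exact ⟨x, ⟨hx, h2, h3⟩, rfl⟩
  rw [← hinj.ncard_image, himg]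
  exact (coset_count (gg e x0) P L hP hL).2

theorem nequi (hN4 : P_N4) (hD : IsFund D)
    (h2 : Module.finrank ℚ K = 2) (hK : NumberField.discr K = (D : ℤ)) (e : Emb K D)
    (y k : ℕ) (ε : ℝ) (hε : 0 < ε) (hε1 : ε < 1) (h : PEqui K e.σ e.τ y k ε) :
    NEqui K e.σ e.τ y k ε := by
  obtain ⟨hE, hall⟩ := h
  set E : ℝ := expd K y k with hEd
  have hne : ∀ A ∈ Fam K y k, A ≠ ⊥ := by
    intro A hA h0
    unfold Fam at hA
    rw [Finset.mem_biUnion] at hA
    obtain ⟨s, hs, hA⟩ := hA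
    rw [Set.Finite.mem_toFinset] at hA
    have hA' : Ideal.absNorm A = prodS s := hA
    rw [h0, Ideal.absNorm_bot] at hA'
    refine (NFh.prodS_pos fun p hp => ?_).ne hA'
    exact (Finset.mem_filter.1 ((Finset.mem_powersetCard.1 hs).1 hp)).2
  have hcount : ∀ (I : Ideal (𝓞 K)) (L : ℝ), (count K e.σ e.τ y k I 0 L : ℝ) =
      ∑ p ∈ (Fam K y k ×ˢ Fam K y k).filter (fun p => (Rep K e.σ e.τ (p.1 * p.2) I).Nonempty),
        ((XAB e (p.1 * p.2) I ∩ {x | 0 ≤ Real.log (e.σ x / e.τ x) ∧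
          Real.log (e.σ x / e.τ x) ≤ L}).ncard : ℝ) := by
    intro I L
    unfold count
    rw [Finset.sum_filter, Finset.sum_product]
    push_cast
    refine Finset.sum_congr rfl fun A _ => Finset.sum_congr rfl fun B _ => ?_
    split_ifs with h3
    · rfl
    · have h4 : XAB e (A * B) I = ∅ := Set.not_nonempty_iff_eq_empty.1 h3
      have h5 : Rep K e.σ e.τ (A * B) I = ∅ := h4
      rw [h5, Set.empty_inter, Set.ncard_empty, Nat.cast_zero]
  -- the group of logarithms is not trivial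
  have hnt : ∃ r ∈ GU e, r ≠ 0 := by
    by_contra hcon
    push Not at hcon
    have hsmall : ∀ (A B : Ideal (𝓞 K)), A ≠ ⊥ → B ≠ ⊥ → ∀ L : ℝ,
        ((XAB e A B ∩ {x | 0 ≤ Real.log (e.σ x / e.τ x) ∧
          Real.log (e.σ x / e.τ x) ≤ L}).ncard : ℝ) ≤ 1 := by
      intro A B hA hB L
      have h3 : (XAB e A B ∩ {x | 0 ≤ Real.log (e.σ x / e.τ x) ∧
          Real.log (e.σ x / e.τ x) ≤ L}).Subsingleton := by
        intro x hx z hz
        refine gg_inj e hB hx.1 hz.1 ?_
        have h4 : gg e x ∈ gg e '' XAB e A B := ⟨x, hx.1, rfl⟩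
        rw [coset e hA hz.1] at h4
        have h5 := hcon _ h4
        linarith
      have : (XAB e A B ∩ {x | 0 ≤ Real.log (e.σ x / e.τ x) ∧
          Real.log (e.σ x / e.τ x) ≤ L}).ncard ≤ 1 := by
        rcases h3.eq_empty_or_singleton with h7 | ⟨x, h7⟩
        · rw [h7, Set.ncard_empty]
          exact zero_le_one
        · rw [h7, Set.ncard_singleton]
      exact_mod_cast this
    have hbd : ∀ L : ℝ, (count K e.σ e.τ y k ⊤ 0 L : ℝ) ≤
        (npairs K e.σ e.τ y k ⊤ : ℝ) := by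
      intro L
      rw [hcount]
      unfold npairs
      rw [Finset.card_eq_sum_ones]
      push_cast
      refine Finset.sum_le_sum fun p hp => ?_
      rw [Finset.mem_filter, Finset.mem_product] at hp
      exact hsmall _ _ (mul_ne_zero (hne _ hp.1.1) (hne _ hp.1.2)) top_ne_bot L
    set L : ℝ := 3 + (npairs K e.σ e.τ y k ⊤ : ℝ) / ((1 - ε) * E) with hL
    have hpos : 0 < (1 - ε) * E := mul_pos (by linarith) hE
    have hLpos : 0 < L := by positivity
    have h3 := ((hall ⊤ top_ne_bot).2.2 0 L hLpos).1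
    have h4 := hbd L
    have h5 : (1 - ε) * (L - 0 - 2) * E = (1 - ε) * E + npairs K e.σ e.τ y k ⊤ := by
      have h6 : (1 - ε) * (L - 0 - 2) * E =
          ((1 - ε) * E) * (1 + (npairs K e.σ e.τ y k ⊤ : ℝ) / ((1 - ε) * E)) := by
        rw [hL]
        ring
      rw [h6, mul_add, mul_one, mul_div_cancel₀ _ hpos.ne']
    linarith
  obtain ⟨P, hP, hGU⟩ := GU_cyclic hN4 hD h2 hK e hnt
  refine ⟨P * E, mul_pos hP hE, fun I hI => ?_⟩
  set N : ℝ := (npairs K e.σ e.τ y k I : ℝ) with hN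
  have hNn : 0 ≤ N := Nat.cast_nonneg _
  have hup : ∀ L : ℝ, 0 < L → N * (L / P - 1) ≤ (1 + ε) * (L + 2) * E := by
    intro L hL
    have h3 := ((hall I hI).2.2 0 L hL).2
    rw [hcount, sub_zero] at h3
    refine le_trans ?_ h3
    rw [hN]
    unfold npairs
    rw [← nsmul_eq_mul, ← Finset.sum_const]
    refine Finset.sum_le_sum fun p hp => ?_
    rw [Finset.mem_filter, Finset.mem_product] at hp
    have h4 := pair_count e P hP hGU (p.1 * p.2) I
      (mul_ne_zero (hne _ hp.1.1) (hne _ hp.1.2)) hI L hL.le hp.2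
    rw [abs_le] at h4
    linarith [h4.1]
  have hlo : ∀ L : ℝ, 0 < L → (1 - ε) * (L - 2) * E ≤ N * (L / P + 1) := by
    intro L hL
    have h3 := ((hall I hI).2.2 0 L hL).1
    rw [hcount, sub_zero] at h3
    refine h3.trans ?_
    rw [hN]
    unfold npairs
    rw [← nsmul_eq_mul, ← Finset.sum_const]
    refine Finset.sum_le_sum fun p hp => ?_
    rw [Finset.mem_filter, Finset.mem_product] at hp
    have h4 := pair_count e P hP hGU (p.1 * p.2) I
      (mul_ne_zero (hne _ hp.1.1) (hne _ hp.1.2)) hI L hL.le hp.2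
    rw [abs_le] at h4
    linarith [h4.2]
  have hup' : N / P ≤ (1 + ε) * E := by
    by_contra hcon
    push Not at hcon
    set δ : ℝ := N / P - (1 + ε) * E with hδ
    have hδ0 : 0 < δ := by linarith
    set L : ℝ := (N + 2 * (1 + ε) * E) / δ + 1 with hL
    have hLpos : 0 < L := by positivity
    have h3 := hup L hLpos
    have h4 : N * (L / P - 1) = N / P * L - N := by ring
    have h5 : δ * L = (N + 2 * (1 + ε) * E) + δ := by
      rw [hL]
      field_simp
    nlinarith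
  have hlo' : (1 - ε) * E ≤ N / P := by
    by_contra hcon
    push Not at hcon
    set δ : ℝ := (1 - ε) * E - N / P with hδ
    have hδ0 : 0 < δ := by linarith
    have hpos : 0 < (1 - ε) * E := mul_pos (by linarith) hE
    set L : ℝ := (N + 2 * ((1 - ε) * E)) / δ + 1 with hL
    have hLpos : 0 < L := by positivity
    have h3 := hlo L hLpos
    have h4 : N * (L / P + 1) = N / P * L + N := by ring
    have h5 : δ * L = (N + 2 * ((1 - ε) * E)) + δ := by
      rw [hL]
      field_simp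
    nlinarith
  rw [div_le_iff₀ hP] at hup'
  rw [le_div_iff₀ hP] at hlo'
  rw [abs_le]
  constructor
  · nlinarith
  · nlinarith

end Pool.Agent.H951R5.PE
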