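import Pool.Agent.H951R5.PE.Defs2
import Pool.Agent.H951R5.PE.Nar2

/-!
# Pointwise equidistribution, with narrow ideal classes: the theorems
-/

set_option autoImplicit false

namespace Pool.Agent.H951R5.PE

open Finset Filter NumberField Pool.Agent.H38R2.CG Pool.Agent.H38R2.CG2 Pool.Agent.H38R2.CG3
open Pool.Agent.H951R5.AR Pool.Agent.H38R2.CG.AS1h Pool.Agent.H38R2.CG.FINh
open scoped Classical

/-- outside the exceptional discriminants -/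
theorem pequi2_of_not_bd (hKF : P_KF) (hN4 : P_N4) (hN5b : P_N5b) (hN0 : P_N0) (hN1 : P_N1)
    (hN3 : P_N3) (hN5 : P_N5) (hN6 : P_N6)
    (a ε : ℝ) (hε : 0 < ε) (hε1 : ε < 1) (X D : ℕ) (hy : 2 ≤ yA a X) (hD : IsFund D)
    (K : Type) [Field K] [NumberField K] (h2 : Module.finrank ℚ K = 2)
    (hK : NumberField.discr K = (D : ℤ)) (hb : ¬ Bd a ε X D) (σ τ : K →+* ℝ) (hne : σ ≠ τ) :
    PEqui K σ τ (yA a X) (kA a X) ε ∧ NEqui K σ τ (yA a X) (kA a X) ε := by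
  obtain ⟨e⟩ := hN0 K D hD h2 hK
  have hlt : 2 * √(D : ℝ) * Lone D * SD D ((PP (yA a X)).powersetCard (kA a X)) (fun _ => 1) <
      (1 + ε) * (MD D ((PP (yA a X)).powersetCard (kA a X)) (fun _ => 1)) ^ 2 := by
    unfold Bd at hb
    push Not at hb
    exact hb
  rcases emb_two h2 e.σ e.τ σ e.ne with h3 | h3
  · rcases emb_two h2 e.σ e.τ τ e.ne with h4 | h4
    · exact absurd (h3.trans h4.symm) hne
    · rw [h3, h4]
      have h5 := pequi hKF hN4 hN5b hN1 hN3 hN5 hN6 hD h2 hK e _ _ hy ε hε hε1.le hlt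
      exact ⟨h5, nequi hN4 hD h2 hK e _ _ ε hε hε1 h5⟩
  · rcases emb_two h2 e.σ e.τ τ e.ne with h4 | h4
    · rw [h3, h4]
      have h5 := pequi hKF hN4 hN5b hN1 hN3 hN5 hN6 hD h2 hK (swp e) _ _ hy ε hε hε1.le hlt
      exact ⟨h5, nequi hN4 hD h2 hK (swp e) _ _ ε hε hε1 h5⟩
    · exact absurd (h3.trans h4.symm) hne

/-- the exceptional d have exceptional discriminants -/
theorem exc_bd3 (hKF : P_KF) (hN4 : P_N4) (hN5b : P_N5b) (hN0 : P_N0) (hN0d : P_N0d)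
    (hN1 : P_N1) (hN3 : P_N3) (hN5 : P_N5)
    (hN6 : P_N6) (a ε : ℝ) (ha : 2 < a) (hε : 0 < ε) (hε1 : ε < 1) :
    ∃ X1 : ℕ, ∀ X : ℕ, X1 ≤ X → ∀ d : ℕ, 1 < d → Squarefree d → ¬ GoodPE2 a ε d → X < Dof d →
      Dof d ≤ 2 * X → IsFund (Dof d) ∧ Bd a ε X (Dof d) := by
  obtain ⟨X1, hX1⟩ := params a ha
  refine ⟨X1, fun X hX d hd1 hds hg hXD hDX => ?_⟩
  have hfund := isFund_Dof hd1 hds
  refine ⟨hfund, ?_⟩
  have hd4 : (X : ℝ) / 4 ≤ d := by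
    have h1 : X < 4 * d := lt_of_lt_of_le hXD (Dof_le d)
    have h2 : (X : ℝ) < 4 * d := by exact_mod_cast h1
    linarith
  have hd2 : (d : ℝ) ≤ 2 * X := by
    have h1 : d ≤ 2 * X := (le_Dof d).trans hDX
    exact_mod_cast h1
  obtain ⟨hy, hk, hy2⟩ := hX1 X hX d hd4 hd2
  by_contra hb
  apply hg
  refine ⟨yA a X, kA a X, hy, hk, ?_⟩
  intro K iF iN hrank hx σ τ hne
  have hdisc : NumberField.discr K = ((Dof d : ℕ) : ℤ) := by
    rw [hN0d K d hd1 hds hrank hx]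
    unfold Dof
    split_ifs <;> simp
  exact pequi2_of_not_bd hKF hN4 hN5b hN0 hN1 hN3 hN5 hN6 a ε hε hε1 X (Dof d) hy2 hfund
    K hrank hdisc hb σ τ hne

/-- the theorem for all squarefree integers -/
theorem finalPE2 (hKF : P_KF) (hN4 : P_N4) (hN5b : P_N5b) (hN0 : P_N0) (hN0d : P_N0d)
    (hN1 : P_N1) (hN3 : P_N3) (hN5 : P_N5)
    (hN6 : P_N6) (ht : P2_TRIV) (hAS : P3_AS0) : FinalPE2 := by
  intro a ε ha hε hε1
  have hmain : Tendsto (fun X : ℕ =>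
      (((Finset.Icc 2 X).filter (fun d => Squarefree d ∧ ¬ GoodPE2 a ε d)).card : ℝ) / X)
      atTop (nhds 0) := by
    suffices hs : ∀ δ : ℝ, 0 < δ → ∃ η : ℝ, 0 < η ∧ η ≤ 1 ∧ ∃ X0 : ℕ, ∀ X ≥ X0,
        (((Finset.Ioc X ⌊(1 + η) * (X : ℝ)⌋₊).filter
          (fun D => ∃ d : ℕ, 1 < d ∧ Squarefree d ∧ ¬ GoodPE2 a ε d ∧ D = Dof d)).card : ℝ) ≤
          δ * η * X by
      have key := fin_all (fun d => ¬ GoodPE2 a ε d) hs
      convert key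
    intro δ hδ
    obtain ⟨η, hη, hη1, X0, hX0⟩ := short_all ht hAS a ha ε hε δ hδ
    obtain ⟨X1, hX1⟩ := exc_bd3 hKF hN4 hN5b hN0 hN0d hN1 hN3 hN5 hN6 a ε ha hε hε1
    refine ⟨η, hη, hη1, max X0 X1, fun X hX => ?_⟩
    refine le_trans ?_ (hX0 X (le_trans (le_max_left _ _) hX))
    have hsub : ((Finset.Ioc X ⌊(1 + η) * (X : ℝ)⌋₊).filter
          (fun D => ∃ d : ℕ, 1 < d ∧ Squarefree d ∧ ¬ GoodPE2 a ε d ∧ D = Dof d)) ⊆
        (Finset.Ioc X ⌊(1 + η) * (X : ℝ)⌋₊).filter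
          (fun D => IsFund D ∧ Bd a ε X D) := by
      intro D hD
      rw [Finset.mem_filter] at hD ⊢
      obtain ⟨hD1, d, hd1, hds, hg, rfl⟩ := hD
      refine ⟨hD1, ?_⟩
      refine hX1 X (le_trans (le_max_right _ _) hX) d hd1 hds hg (Finset.mem_Ioc.1 hD1).1 ?_
      have h1 := (Finset.mem_Ioc.1 hD1).2
      have h2 : ((⌊(1 + η) * (X : ℝ)⌋₊ : ℕ) : ℝ) ≤ (1 + η) * (X : ℝ) :=
        Nat.floor_le (by positivity)
      have h3 : (Dof d : ℝ) ≤ (⌊(1 + η) * (X : ℝ)⌋₊ : ℝ) := by exact_mod_cast h1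
      have h5 : (Dof d : ℝ) ≤ 2 * (X : ℝ) := by
        have : (0 : ℝ) ≤ X := by positivity
        nlinarith
      exact_mod_cast h5
    exact_mod_cast Finset.card_le_card hsub
  refine hmain.congr fun X => ?_
  congr 2
  symm
  refine Nat.subtype_card _ fun d => ?_
  rw [Finset.mem_filter, Finset.mem_Icc]
  tauto

/-- the theorem for primes -/
theorem finalPEP2 (hKF : P_KF) (hN4 : P_N4) (hN5b : P_N5b) (hN0 : P_N0) (hN0d : P_N0d)
    (hN1 : P_N1) (hN3 : P_N3) (hN5 : P_N5)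
    (hN6 : P_N6) (hNB : P_NB) (hBH : P2_BH) (hRC : P2_RC) (hAS : P3_AS0) :
    FinalPEP2 := by
  intro a ε ha hε hε1
  have hmain : Tendsto (fun X : ℕ =>
      (((Finset.Icc 2 X).filter (fun p => p.Prime ∧ ¬ GoodPE2 a ε p)).card : ℝ) /
        (((Finset.Icc 2 X).filter Nat.Prime).card : ℝ)) atTop (nhds 0) := by
    suffices hs : ∀ δ : ℝ, 0 < δ → ∃ η : ℝ, 0 < η ∧ η ≤ 1 ∧ ∃ X0 : ℕ, ∀ X ≥ X0,
        (((Finset.Ioc X ⌊(1 + η) * (X : ℝ)⌋₊).filter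
          (fun D => ∃ p : ℕ, p.Prime ∧ ¬ GoodPE2 a ε p ∧ D = Dof p)).card : ℝ) ≤
          δ * η * X / Real.log X by
      have key := fin_primes hNB (fun d => ¬ GoodPE2 a ε d) hs
      convert key
    intro δ hδ
    obtain ⟨η, hη, hη1, X0, hX0⟩ := short_primes hAS hBH hRC a ha ε hε δ hδ
    obtain ⟨X1, hX1⟩ := exc_bd3 hKF hN4 hN5b hN0 hN0d hN1 hN3 hN5 hN6 a ε ha hε hε1
    refine ⟨η, hη, hη1, max X0 X1, fun X hX => ?_⟩
    refine le_trans ?_ (hX0 X (le_trans (le_max_left _ _) hX))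
    have hsub : ((Finset.Ioc X ⌊(1 + η) * (X : ℝ)⌋₊).filter
          (fun D => ∃ p : ℕ, p.Prime ∧ ¬ GoodPE2 a ε p ∧ D = Dof p)) ⊆
        (Finset.Ioc X ⌊(1 + η) * (X : ℝ)⌋₊).filter
          (fun D => (∃ p : ℕ, p.Prime ∧ (D = p ∨ D = 4 * p)) ∧
            IsFund D ∧ Bd a ε X D) := by
      intro D hD
      rw [Finset.mem_filter] at hD ⊢
      obtain ⟨hD1, p, hp, hg, rfl⟩ := hD
      refine ⟨hD1, ⟨p, hp, ?_⟩, ?_⟩
      · unfold Dof
        split_ifs <;> simp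
      refine hX1 X (le_trans (le_max_right _ _) hX) p hp.one_lt hp.squarefree hg
        (Finset.mem_Ioc.1 hD1).1 ?_
      have h1 := (Finset.mem_Ioc.1 hD1).2
      have h2 : ((⌊(1 + η) * (X : ℝ)⌋₊ : ℕ) : ℝ) ≤ (1 + η) * (X : ℝ) :=
        Nat.floor_le (by positivity)
      have h3 : (Dof p : ℝ) ≤ (⌊(1 + η) * (X : ℝ)⌋₊ : ℝ) := by exact_mod_cast h1
      have h5 : (Dof p : ℝ) ≤ 2 * (X : ℝ) := by
        have : (0 : ℝ) ≤ X := by positivity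
        nlinarith
      exact_mod_cast h5
    exact_mod_cast Finset.card_le_card hsub
  refine hmain.congr fun X => ?_
  have e1 : (Nat.card {p : ℕ // p ≤ X ∧ p.Prime ∧ ¬ GoodPE2 a ε p}) =
      ((Finset.Icc 2 X).filter (fun p => p.Prime ∧ ¬ GoodPE2 a ε p)).card := by
    refine Nat.subtype_card _ fun p => ?_
    rw [Finset.mem_filter, Finset.mem_Icc]
    constructor
    · rintro ⟨⟨-, h2⟩, h3, h4⟩
      exact ⟨h2, h3, h4⟩
    · rintro ⟨h2, h3, h4⟩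
      exact ⟨⟨h3.two_le, h2⟩, h3, h4⟩
  have e2 : (Nat.card {p : ℕ // p ≤ X ∧ p.Prime}) =
      ((Finset.Icc 2 X).filter Nat.Prime).card := by
    refine Nat.subtype_card _ fun p => ?_
    rw [Finset.mem_filter, Finset.mem_Icc]
    constructor
    · rintro ⟨⟨-, h2⟩, h3⟩
      exact ⟨h2, h3⟩
    · rintro ⟨h2, h3⟩
      exact ⟨⟨h3.two_le, h2⟩, h3⟩
  rw [e1, e2]

end Pool.Agent.H951R5.PE
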