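import Pool.Agent.H951R5.PE.Main

/-!
# Narrow ideal classes
-/

set_option autoImplicit false

namespace Pool.Agent.H951R5.PE

open Finset Filter NumberField Pool.Agent.H38R2.CG Pool.Agent.H951R5.AR
open scoped Classical

variable {K : Type} [Field K] [NumberField K] {D : ℕ}

/-- the logarithm -/
noncomputable def gg (e : Emb K D) (x : K) : ℝ := Real.log (e.σ x / e.τ x)

theorem gg_mul (e : Emb K D) {x y : K} (h1 : 0 < e.σ x) (h2 : 0 < e.τ x) (h3 : 0 < e.σ y)
    (h4 : 0 < e.τ y) : gg e (x * y) = gg e x + gg e y := by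
  unfold gg
  rw [map_mul, map_mul, mul_div_mul_comm, Real.log_mul (div_pos h1 h2).ne' (div_pos h3 h4).ne']

theorem gg_inv (e : Emb K D) (x : K) : gg e x⁻¹ = - gg e x := by
  unfold gg
  rw [map_inv₀, map_inv₀, ← Real.log_inv]
  congr 1
  rw [inv_div, inv_div_inv]

/-- elements of one coset are determined by the logarithm -/
theorem gg_inj (e : Emb K D) {A B : Ideal (𝓞 K)} (hB : B ≠ ⊥) {x y : K} (hx : x ∈ XAB e A B)
    (hy : y ∈ XAB e A B) (h : gg e x = gg e y) : x = y := by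
  have hn1 := N5ah.norm_XAB e hx
  have hn2 := N5ah.norm_XAB e hy
  have hB0 : (0 : ℝ) < Ideal.absNorm B := by
    have : Ideal.absNorm B ≠ 0 := by
      rw [Ne, Ideal.absNorm_eq_zero_iff]
      exact hB
    exact_mod_cast Nat.pos_of_ne_zero this
  obtain ⟨a1, a2, -⟩ := hx
  obtain ⟨b1, b2, -⟩ := hy
  have hA0 : (0 : ℝ) < Ideal.absNorm A := by
    rcases (Nat.cast_nonneg (Ideal.absNorm A) : (0 : ℝ) ≤ Ideal.absNorm A).lt_or_eq with h0 | h0
    · exact h0
    · rw [← h0, mul_zero] at hn1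
      exact absurd hn1 hB0.ne'
  have h1 : e.σ x * e.τ x = e.σ y * e.τ y := by
    have := hn1.symm.trans hn2
    exact mul_right_cancel₀ hA0.ne' this
  have h2 : e.σ x / e.τ x = e.σ y / e.τ y := by
    unfold gg at h
    exact Real.log_injOn_pos (Set.mem_Ioi.2 (div_pos a1 a2)) (Set.mem_Ioi.2 (div_pos b1 b2)) h
  have h3 : e.σ x ^ 2 = e.σ y ^ 2 := by
    have e1 : e.σ x ^ 2 = (e.σ x * e.τ x) * (e.σ x / e.τ x) := by field_simp
    have e2 : e.σ y ^ 2 = (e.σ y * e.τ y) * (e.σ y / e.τ y) := by field_simp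
    rw [e1, e2, h1, h2]
  have h4 : e.σ x = e.σ y := by
    have := abs_eq_abs.2 (sq_eq_sq_iff_eq_or_eq_neg.1 h3)
    rwa [abs_of_pos a1, abs_of_pos b1] at this
  exact e.σ.injective h4

/-- the group of the logarithms of the totally positive units -/
noncomputable def GU (e : Emb K D) : AddSubgroup ℝ where
  carrier := gg e '' XAB e ⊤ ⊤
  add_mem' := by
    rintro _ _ ⟨x, hx, rfl⟩ ⟨y, hy, rfl⟩
    exact ⟨x * y, XAB_mul_el e hx hy, gg_mul e hx.1 hx.2.1 hy.1 hy.2.1⟩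
  zero_mem' := by
    refine ⟨1, ⟨?_, ?_, ?_⟩, ?_⟩
    · rw [map_one]; exact one_pos
    · rw [map_one]; exact one_pos
    · rw [FractionalIdeal.spanSingleton_one, one_mul]
    · unfold gg
      rw [map_one, map_one, div_one, Real.log_one]
  neg_mem' := by
    rintro _ ⟨x, hx, rfl⟩
    exact ⟨x⁻¹, (XAB_inv e hx).1, gg_inv e x⟩

/-- the logarithms of a coset -/
theorem coset (e : Emb K D) {A B : Ideal (𝓞 K)} (hA : A ≠ ⊥) {x : K} (hx : x ∈ XAB e A B) :
    gg e '' XAB e A B = {r | r - gg e x ∈ GU e} := by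
  have hx0 := N5ah.ne_zero_of_pos e hx.1
  have hA' : (A : FractionalIdeal (nonZeroDivisors (𝓞 K)) K) ≠ 0 :=
    FractionalIdeal.coeIdeal_ne_zero.2 hA
  ext r
  simp only [Set.mem_image, Set.mem_ofPred_eq]
  constructor
  · rintro ⟨y, hy, rfl⟩
    have hq : y / x ∈ XAB e ⊤ ⊤ := by
      refine ⟨?_, ?_, ?_⟩
      · rw [map_div₀]; exact div_pos hy.1 hx.1
      · rw [map_div₀]; exact div_pos hy.2.1 hx.2.1
      · have h1 : FractionalIdeal.spanSingleton (nonZeroDivisors (𝓞 K)) (y / x) *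
            (FractionalIdeal.spanSingleton (nonZeroDivisors (𝓞 K)) x * A) =
            FractionalIdeal.spanSingleton (nonZeroDivisors (𝓞 K)) y * A := by
          rw [← mul_assoc, FractionalIdeal.spanSingleton_mul_spanSingleton,
            div_mul_cancel₀ _ hx0]
        rw [hx.2.2, ← hy.2.2] at h1
        have h2 : FractionalIdeal.spanSingleton (nonZeroDivisors (𝓞 K)) (y / x) = 1 := by
          have hyA : FractionalIdeal.spanSingleton (nonZeroDivisors (𝓞 K)) y *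
              (A : FractionalIdeal (nonZeroDivisors (𝓞 K)) K) ≠ 0 :=
            mul_ne_zero (span_ne (N5ah.ne_zero_of_pos e hy.1)) hA'
          exact (mul_eq_right₀ hyA).1 h1
        rw [h2, one_mul]
    have h3 : gg e (y / x) = gg e y - gg e x := by
      unfold gg
      exact N5ah.log_div e hy.1 hy.2.1 hx.1 hx.2.1
    exact ⟨y / x, hq, h3⟩
  · rintro ⟨u, hu, hu2⟩
    refine ⟨u * x, ?_, ?_⟩
    · refine ⟨?_, ?_, ?_⟩
      · rw [map_mul]; exact mul_pos hu.1 hx.1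
      · rw [map_mul]; exact mul_pos hu.2.1 hx.2.1
      · rw [← hx.2.2, ← FractionalIdeal.spanSingleton_mul_spanSingleton, mul_assoc]
        have h2 : FractionalIdeal.spanSingleton (nonZeroDivisors (𝓞 K)) u = 1 := by
          have h3 := hu.2.2
          rw [FractionalIdeal.coeIdeal_top, mul_one] at h3
          exact h3
        rw [h2, one_mul]
    · rw [gg_mul e hu.1 hu.2.1 hx.1 hx.2.1, hu2]
      ring

/-- the number of members of a coset of ℤP in a window -/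
theorem coset_count (c P L : ℝ) (hP : 0 < P) (hL : 0 ≤ L) :
    {r : ℝ | r - c ∈ AddSubgroup.zmultiples P ∧ 0 ≤ r ∧ r ≤ L}.Finite ∧
    |(({r : ℝ | r - c ∈ AddSubgroup.zmultiples P ∧ 0 ≤ r ∧ r ≤ L}.ncard : ℕ) : ℝ) - L / P| ≤ 1 := by
  have h1 : {r : ℝ | r - c ∈ AddSubgroup.zmultiples P ∧ 0 ≤ r ∧ r ≤ L} =
      (((Finset.Icc ⌈-c / P⌉ ⌊(L - c) / P⌋).image (fun m : ℤ => c + m * P) : Finset ℝ) :
        Set ℝ) := by
    ext r
    rw [Finset.mem_coe, Finset.mem_image]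
    simp only [Set.mem_ofPred_eq, Finset.mem_Icc, AddSubgroup.mem_zmultiples_iff, zsmul_eq_mul]
    constructor
    · rintro ⟨⟨m, hm⟩, h0, hL⟩
      refine ⟨m, ⟨?_, ?_⟩, by linarith⟩
      · rw [Int.ceil_le, div_le_iff₀ hP]
        linarith
      · rw [Int.le_floor, le_div_iff₀ hP]
        linarith
    · rintro ⟨m, ⟨ha, hb⟩, rfl⟩
      rw [Int.ceil_le, div_le_iff₀ hP] at ha
      rw [Int.le_floor, le_div_iff₀ hP] at hb
      exact ⟨⟨m, by ring⟩, by linarith, by linarith⟩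
  rw [h1]
  refine ⟨Finset.finite_toSet _, ?_⟩
  rw [Set.ncard_coe_finset, Finset.card_image_of_injective]
  · rw [Int.card_Icc]
    have h2 := Int.floor_le ((L - c) / P)
    have h3 := Int.lt_floor_add_one ((L - c) / P)
    have h4 := Int.le_ceil (-c / P)
    have h5 := Int.ceil_lt_add_one (-c / P)
    have h6 : (L - c) / P - -c / P = L / P := by
      field_simp
      ring
    have h7 : 0 ≤ L / P := by positivity
    have h8 : 0 ≤ ⌊(L - c) / P⌋ + 1 - ⌈-c / P⌉ := by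
      have : ((-1 : ℤ) : ℝ) < ((⌊(L - c) / P⌋ + 1 - ⌈-c / P⌉ : ℤ) : ℝ) := by
        push_cast
        linarith
      have h9 : (-1 : ℤ) < ⌊(L - c) / P⌋ + 1 - ⌈-c / P⌉ := by exact_mod_cast this
      omega
    have h9 : (((⌊(L - c) / P⌋ + 1 - ⌈-c / P⌉).toNat : ℕ) : ℝ) =
        ((⌊(L - c) / P⌋ + 1 - ⌈-c / P⌉ : ℤ) : ℝ) := by
      have := Int.toNat_of_nonneg h8
      exact_mod_cast this
    rw [h9, abs_le]
    push_cast
    constructor <;> linarith
  · intro m n hmn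
    have : (m : ℝ) * P = n * P := by linarith
    exact_mod_cast mul_right_cancel₀ hP.ne' this

/-- the group of logarithms is infinite cyclic if some window is large -/
theorem GU_cyclic (hN4 : P_N4) (hD : IsFund D)
    (h2 : Module.finrank ℚ K = 2) (hK : NumberField.discr K = (D : ℤ)) (e : Emb K D)
    (hne : ∃ r ∈ GU e, r ≠ 0) : ∃ P : ℝ, 0 < P ∧ GU e = AddSubgroup.zmultiples P := by
  have hfin : ((GU e : Set ℝ) ∩ Set.Icc (-1) 1).Finite := by
    have h1 := fin_win hN4 hD h2 hK e (⊤ : Ideal (𝓞 K)) ⊤ top_ne_bot (-1) 1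
    refine (h1.image (gg e)).subset ?_
    rintro r ⟨⟨x, hx, rfl⟩, h3, h4⟩
    exact ⟨x, ⟨hx, h3, h4⟩, rfl⟩
  rcases AddSubgroup.dense_or_cyclic (GU e) with h | ⟨a, ha⟩
  · exfalso
    have h1 : (Set.Ioo (0 : ℝ) 1 \ ((GU e : Set ℝ) ∩ Set.Icc (-1) 1)).Nonempty :=
      ((Set.Ioo_infinite (zero_lt_one' ℝ)).diff hfin).nonempty
    obtain ⟨x, ⟨⟨h3, h4⟩, h5⟩, h6⟩ := Dense.inter_open_nonempty h _
      (isOpen_Ioo.sdiff hfin.isClosed) h1
    exact h5 ⟨h6, by linarith, h4.le⟩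
  · rw [← AddSubgroup.zmultiples_eq_closure] at ha
    obtain ⟨r, hr, hr0⟩ := hne
    have ha0 : a ≠ 0 := by
      rintro rfl
      rw [ha, AddSubgroup.zmultiples_zero_eq_bot, AddSubgroup.mem_bot] at hr
      exact hr0 hr
    rcases lt_or_gt_of_ne ha0 with h | h
    · exact ⟨-a, by linarith, by rw [ha, AddSubgroup.zmultiples_neg]⟩
    · exact ⟨a, h, ha⟩

end Pool.Agent.H951R5.PE
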