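import Pool.Agent.H38R2.CG.N5a
import Pool.Agent.H38R2.CG.N5b

/-!
# The near collision kernel is positive semidefinite
-/

set_option autoImplicit false

namespace Pool.Agent.H951R5.PE

open Finset Filter NumberField Pool.Agent.H38R2.CG
open Pool.Agent.H38R2.CG.N5ah
open scoped Classical

theorem XAB_mul_el {K : Type} [Field K] [NumberField K] {D : ℕ} (e : Emb K D)
    {A B J : Ideal (𝓞 K)} {x y : K} (hx : x ∈ XAB e A B) (hy : y ∈ XAB e B J) :
    x * y ∈ XAB e A J := by
  refine ⟨?_, ?_, ?_⟩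
  · rw [map_mul]; exact mul_pos hx.1 hy.1
  · rw [map_mul]; exact mul_pos hx.2.1 hy.2.1
  · rw [← hy.2.2, ← hx.2.2, ← mul_assoc, FractionalIdeal.spanSingleton_mul_spanSingleton,
      mul_comm y x]

/-- the number of pairs, exactly -/
theorem pos_finite (hKF : P_KF) (K : Type) [Field K] [NumberField K] (D : ℕ) (hD : IsFund D)
    (hdeg : Module.finrank ℚ K = 2) (hdisc : NumberField.discr K = (D : ℤ)) (e : Emb K D)
    (ι : Type) [Fintype ι] (A : ι → nonZeroDivisors (Ideal (𝓞 K))) (w : ι → ℝ) (N : ℕ) :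
    0 ≤ ∑ i, ∑ j, w i * w j * Vij e (A i : Ideal (𝓞 K)) (A j : Ideal (𝓞 K)) N := by
  have hA0 : ∀ i, (A i : Ideal (𝓞 K)) ≠ ⊥ := fun i => nonZeroDivisors.coe_ne_zero (A i)
  have hUfin : ∀ (i : ι) (J : nonZeroDivisors (Ideal (𝓞 K))),
      (U e (A i : Ideal (𝓞 K)) (J : Ideal (𝓞 K))).Finite := by
    intro i J
    refine (hKF K D hD hdeg hdisc e (A i) J (hA0 i) (nonZeroDivisors.coe_ne_zero J)).subset ?_
    rintro x ⟨h1, h2, h3⟩
    refine ⟨h1, ?_⟩
    show |Real.log (e.σ x / e.τ x)| ≤ 1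
    rw [abs_of_nonneg h2]
    exact h3.le
  -- the ideals
  have hTfin : {I : nonZeroDivisors (Ideal (𝓞 K)) |
      Ideal.absNorm (I : Ideal (𝓞 K)) ≤ N}.Finite :=
    Ideal.finite_setOfPred_absNorm_le₀ (S := 𝓞 K) N
  set T : Finset (nonZeroDivisors (Ideal (𝓞 K))) := hTfin.toFinset with hT
  have hTmem : ∀ I, I ∈ T ↔ Ideal.absNorm (I : Ideal (𝓞 K)) ≤ N := by
    intro I
    rw [hT, Set.Finite.mem_toFinset]
    rfl
  let UF : ι → nonZeroDivisors (Ideal (𝓞 K)) → Finset K := fun i J => (hUfin i J).toFinset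
  have hUF : ∀ i J x, x ∈ UF i J ↔ x ∈ U e (A i : Ideal (𝓞 K)) (J : Ideal (𝓞 K)) := by
    intro i J x
    exact Set.Finite.mem_toFinset _
  -- the lattice sets
  have hlat : ∀ i, latSet e (A i : Ideal (𝓞 K)) 0 1 N ⊆ (T.biUnion (UF i) : Finset K) := by
    rintro i x ⟨h1, h2, h3, h4, h5, h6⟩
    obtain ⟨J, hJ, hxJ⟩ := exists_XAB e (hA0 i) h1 h2 h5
    have hJ' : J ∈ nonZeroDivisors (Ideal (𝓞 K)) := mem_nonZeroDivisors_of_ne_zero hJ
    rw [Finset.mem_coe, Finset.mem_biUnion]
    refine ⟨⟨J, hJ'⟩, ?_, ?_⟩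
    · rw [hTmem]
      have h7 := norm_XAB e hxJ
      have h8 : (Ideal.absNorm J : ℝ) ≤ (N : ℝ) := by rw [h7]; exact h6
      exact_mod_cast h8
    · rw [hUF]
      exact ⟨hxJ, h3, h4⟩
  have hlatfin : ∀ i, (latSet e (A i : Ideal (𝓞 K)) 0 1 N).Finite := fun i =>
    (Finset.finite_toSet _).subset (hlat i)
  -- the pair counts
  have hpair : ∀ i j, Vij e (A i : Ideal (𝓞 K)) (A j : Ideal (𝓞 K)) N =
      ∑ J ∈ T, ((UF i J).card : ℝ) * ((UF j J).card : ℝ) := by
    intro i j
    have hΔfin := hKF K D hD hdeg hdisc e (A i) (A j) (hA0 i) (hA0 j)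
    set Δ : Finset K := hΔfin.toFinset with hΔ
    have hΔmem : ∀ x, x ∈ Δ ↔ x ∈ XAB e (A i : Ideal (𝓞 K)) (A j : Ideal (𝓞 K)) ∧
        |Real.log (e.σ x / e.τ x)| ≤ 1 := by
      intro x
      rw [hΔ, Set.Finite.mem_toFinset]
      rfl
    let L : K → Set K := fun x => latSet e (A j : Ideal (𝓞 K))
      (max 0 (-(Real.log (e.σ x / e.τ x)))) (min 1 (1 - Real.log (e.σ x / e.τ x))) N
    have hLfin : ∀ x, (L x).Finite := by
      intro x
      refine (hlatfin j).subset ?_
      rintro y ⟨h1, h2, h3, h4, h5, h6⟩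
      exact ⟨h1, h2, (le_max_left _ _).trans h3, h4.trans_le (min_le_left _ _), h5, h6⟩
    have hV : Vij e (A i : Ideal (𝓞 K)) (A j : Ideal (𝓞 K)) N = ∑ x ∈ Δ, ((L x).ncard : ℝ) := by
      unfold Vij
      refine finsum_mem_eq_sum_of_subset _ ?_ ?_
      · rintro x ⟨hx1, hx2⟩
        rw [Finset.mem_coe, hΔmem]
        refine ⟨hx1, ?_⟩
        by_contra hcon
        apply hx2
        have hempty : L x = ∅ := by
          rw [Set.eq_empty_iff_forall_notMem]
          rintro y ⟨h1, h2, h3, h4, h5, h6⟩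
          have h7 : 0 ≤ Real.log (e.σ y / e.τ y) := (le_max_left _ _).trans h3
          have h8 : -(Real.log (e.σ x / e.τ x)) ≤ Real.log (e.σ y / e.τ y) :=
            (le_max_right _ _).trans h3
          have h9 : Real.log (e.σ y / e.τ y) < 1 := h4.trans_le (min_le_left _ _)
          have h10 : Real.log (e.σ y / e.τ y) < 1 - Real.log (e.σ x / e.τ x) :=
            h4.trans_le (min_le_right _ _)
          apply hcon
          rw [abs_le]
          constructor <;> linarith
        show ((L x).ncard : ℝ) = 0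
        rw [hempty, Set.ncard_empty, Nat.cast_zero]
      · intro x hx
        exact ((hΔmem x).1 (Finset.mem_coe.1 hx)).1
    rw [hV]
    let LF : K → Finset K := fun x => (hLfin x).toFinset
    have hLF : ∀ x, (LF x).card = (L x).ncard := fun x =>
      (Set.ncard_eq_toFinset_card _ (hLfin x)).symm
    have hLFmem : ∀ x y, y ∈ LF x ↔ y ∈ L x := fun x y => Set.Finite.mem_toFinset _
    have hcard : (T.sigma fun J => UF i J ×ˢ UF j J).card = (Δ.sigma LF).card := by
      refine Finset.card_nbij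
        (fun p => (⟨p.2.1 / p.2.2, p.2.2⟩ : Σ _ : K, K)) ?_ ?_ ?_
      · rintro ⟨J, x, y⟩ hp
        rw [Finset.mem_coe, Finset.mem_sigma] at hp
        obtain ⟨hJ, hxy⟩ := hp
        simp only [Finset.mem_product, hUF] at hxy
        obtain ⟨hx, hy⟩ := hxy
        rw [hTmem] at hJ
        have hld := log_div e hx.1.1 hx.1.2.1 hy.1.1 hy.1.2.1
        have hxd := XAB_div e hx.1 hy.1
        simp only at hJ
        rw [Finset.mem_coe, Finset.mem_sigma]
        constructor
        · show x / y ∈ Δ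
          rw [hΔmem]
          refine ⟨hxd, ?_⟩
          rw [hld, abs_le]
          have h1 := hx.2.1
          have h2 := hx.2.2
          have h3 := hy.2.1
          have h4 := hy.2.2
          constructor <;> linarith
        · show y ∈ LF (x / y)
          rw [Set.Finite.mem_toFinset]
          have h1 := hx.2.1
          have h2 := hx.2.2
          have h3 := hy.2.1
          have h4 := hy.2.2
          refine ⟨hy.1.1, hy.1.2.1, ?_, ?_, mem_inv_of_XAB e (hA0 j) hy.1, ?_⟩
          · rw [hld]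
            refine max_le h3 ?_
            linarith
          · rw [hld]
            refine lt_min h4 ?_
            linarith
          · rw [← norm_XAB e hy.1]
            exact_mod_cast hJ
      · rintro ⟨J, x, y⟩ hp ⟨J', x', y'⟩ hp' heq
        rw [Finset.mem_coe, Finset.mem_sigma] at hp hp'
        obtain ⟨hJ, hxy⟩ := hp
        obtain ⟨hJ', hxy'⟩ := hp'
        simp only [Finset.mem_product, hUF] at hxy hxy'
        simp only [Sigma.mk.injEq, heq_eq_eq] at heq
        obtain ⟨h1, h2⟩ := heq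
        subst h2
        have hy0 := ne_zero_of_pos e hxy.2.1.1
        have h3 : x = x' := by
          have := congrArg (fun z => z * y) h1
          simpa [div_mul_cancel₀ _ hy0] using this
        subst h3
        have h4 : (J : Ideal (𝓞 K)) = (J' : Ideal (𝓞 K)) := XAB_unique e hxy.2.1 hxy'.2.1
        have h5 : J = J' := Subtype.ext h4
        subst h5
        rfl
      · rintro ⟨x, y⟩ hp
        rw [Finset.mem_coe, Finset.mem_sigma] at hp
        obtain ⟨hx, hy⟩ := hp
        simp only at hx hy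
        rw [hΔmem] at hx
        rw [hLFmem] at hy
        obtain ⟨h1, h2, h3, h4, h5, h6⟩ := hy
        obtain ⟨J, hJ, hyJ⟩ := exists_XAB e (hA0 j) h1 h2 h5
        have hJ' : J ∈ nonZeroDivisors (Ideal (𝓞 K)) := mem_nonZeroDivisors_of_ne_zero hJ
        have hxy := XAB_mul_el e hx.1 hyJ
        have hy0 := ne_zero_of_pos e h1
        have hld := log_div e hxy.1 hxy.2.1 h1 h2
        rw [mul_div_cancel_right₀ _ hy0] at hld
        have h3' := (le_max_left _ _).trans h3
        have h3'' := (le_max_right _ _).trans h3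
        have h4' := h4.trans_le (min_le_left _ _)
        have h4'' := h4.trans_le (min_le_right _ _)
        refine ⟨⟨⟨J, hJ'⟩, x * y, y⟩, ?_, ?_⟩
        · rw [Finset.mem_coe, Finset.mem_sigma]
          refine ⟨?_, ?_⟩
          · rw [hTmem]
            have h7 := norm_XAB e hyJ
            have h8 : (Ideal.absNorm J : ℝ) ≤ (N : ℝ) := by rw [h7]; exact h6
            exact_mod_cast h8
          · simp only [Finset.mem_product, hUF]
            refine ⟨⟨hxy, ?_, ?_⟩, ⟨hyJ, h3', h4'⟩⟩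
            · linarith
            · linarith
        · simp only [Sigma.mk.injEq, heq_eq_eq, and_true]
          exact mul_div_cancel_right₀ _ hy0
    rw [Finset.card_sigma, Finset.card_sigma] at hcard
    simp only [Finset.card_product] at hcard
    calc ∑ x ∈ Δ, ((L x).ncard : ℝ) = ((∑ x ∈ Δ, (LF x).card : ℕ) : ℝ) := by
          push_cast
          exact Finset.sum_congr rfl fun x _ => by rw [hLF]
      _ = ((∑ J ∈ T, (UF i J).card * (UF j J).card : ℕ) : ℝ) := by rw [hcard]
      _ = _ := by push_cast; rfl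
  have h1 : ∑ J ∈ T, (∑ i, w i * ((UF i J).card : ℝ)) ^ 2 =
      ∑ i, ∑ j, w i * w j * Vij e (A i : Ideal (𝓞 K)) (A j : Ideal (𝓞 K)) N := by
    have h2 : ∀ J, (∑ i, w i * ((UF i J).card : ℝ)) ^ 2 =
        ∑ i, ∑ j, w i * w j * (((UF i J).card : ℝ) * ((UF j J).card : ℝ)) := by
      intro J
      rw [sq, Finset.sum_mul_sum]
      refine Finset.sum_congr rfl fun i _ => Finset.sum_congr rfl fun j _ => ?_
      ring
    rw [Finset.sum_congr rfl fun J _ => h2 J, Finset.sum_comm]
    refine Finset.sum_congr rfl fun i _ => ?_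
    rw [Finset.sum_comm]
    refine Finset.sum_congr rfl fun j _ => ?_
    rw [hpair, Finset.mul_sum]
  rw [← h1]
  exact Finset.sum_nonneg fun J _ => sq_nonneg _

/-- the kernel is positive semidefinite -/
theorem kernel_pos (hKF : P_KF) (h5b : P_N5b) (K : Type) [Field K] [NumberField K] (D : ℕ)
    (hD : IsFund D) (hdeg : Module.finrank ℚ K = 2) (hdisc : NumberField.discr K = (D : ℤ))
    (e : Emb K D) (ι : Type) [Fintype ι] (A : ι → nonZeroDivisors (Ideal (𝓞 K))) (w : ι → ℝ) :
    0 ≤ ∑ i, ∑ j, w i * w j * KAB e (A i : Ideal (𝓞 K)) (A j : Ideal (𝓞 K)) := by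
  have hA0 : ∀ i, (A i : Ideal (𝓞 K)) ≠ ⊥ := fun i => nonZeroDivisors.coe_ne_zero (A i)
  have hD1 : 1 < D := hD.1
  have hDr : (0 : ℝ) < D := by exact_mod_cast (by omega : 0 < D)
  have hsq : 0 < √(D : ℝ) := Real.sqrt_pos.mpr hDr
  have hl2 : Tendsto (fun N : ℕ =>
      ∑ i, ∑ j, w i * w j * (Vij e (A i : Ideal (𝓞 K)) (A j : Ideal (𝓞 K)) N / N)) atTop
      (nhds (∑ i, ∑ j, w i * w j *
        (KAB e (A i : Ideal (𝓞 K)) (A j : Ideal (𝓞 K)) / (2 * √(D : ℝ))))) := by
    refine tendsto_finsetSum _ fun i _ => tendsto_finsetSum _ fun j _ => ?_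
    exact (h5b K D hD hdeg hdisc e (A i) (A j) (hA0 i) (hA0 j)).const_mul (w i * w j)
  have h0 : 0 ≤ ∑ i, ∑ j, w i * w j *
        (KAB e (A i : Ideal (𝓞 K)) (A j : Ideal (𝓞 K)) / (2 * √(D : ℝ))) := by
    refine ge_of_tendsto' hl2 fun N => ?_
    have e1 : ∑ i, ∑ j, w i * w j * (Vij e (A i : Ideal (𝓞 K)) (A j : Ideal (𝓞 K)) N / N) =
        (∑ i, ∑ j, w i * w j * Vij e (A i : Ideal (𝓞 K)) (A j : Ideal (𝓞 K)) N) / N := by
      rw [Finset.sum_div]
      refine Finset.sum_congr rfl fun i _ => ?_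
      rw [Finset.sum_div]
      refine Finset.sum_congr rfl fun j _ => ?_
      ring
    rw [e1]
    exact div_nonneg (pos_finite hKF K D hD hdeg hdisc e ι A w N) (Nat.cast_nonneg _)
  have e2 : ∑ i, ∑ j, w i * w j *
        (KAB e (A i : Ideal (𝓞 K)) (A j : Ideal (𝓞 K)) / (2 * √(D : ℝ))) =
        (∑ i, ∑ j, w i * w j * KAB e (A i : Ideal (𝓞 K)) (A j : Ideal (𝓞 K))) /
          (2 * √(D : ℝ)) := by
    rw [Finset.sum_div]
    refine Finset.sum_congr rfl fun i _ => ?_
    rw [Finset.sum_div]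
    refine Finset.sum_congr rfl fun j _ => ?_
    ring
  rw [e2] at h0
  by_contra hcon
  push Not at hcon
  have := div_neg_of_neg_of_pos hcon (by positivity : (0 : ℝ) < 2 * √(D : ℝ))
  linarith

end Pool.Agent.H951R5.PE
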