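import Pool.Agent.H951R5.PE.Core

/-!
# Pointwise equidistribution: two-sided bound
-/

set_option autoImplicit false

namespace Pool.Agent.H951R5.PE

open Finset Filter NumberField Pool.Agent.H38R2.CG Pool.Agent.H951R5.AR
open scoped Classical

variable {K : Type} [Field K] [NumberField K] {D : ℕ}

/-- the smoothed number of representations of I with logarithm near t -/
noncomputable def RR (e : Emb K D) (S : Finset (Finset ℕ)) (I : Ideal (𝓞 K)) (t : ℝ) : ℝ :=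
  ∑ s ∈ S, ∑ A ∈ NFh.U K (prodS s), ∑ s' ∈ S, ∑ B ∈ NFh.U K (prodS s'), TAB e (A * B) I t

open NFh in
theorem core_two (hKF : P_KF) (hN5b : P_N5b) (hN1 : P_N1) (hN3 : P_N3) (hN5 : P_N5)
    (hN6 : P_N6) (hD : IsFund D)
    (h2 : Module.finrank ℚ K = 2) (hK : NumberField.discr K = (D : ℤ)) (e : Emb K D)
    (S : Finset (Finset ℕ))
    (hf : ∀ s ∈ S, ∀ p ∈ s, p.Prime ∧ p ≠ 2) (I : Ideal (𝓞 K)) (hI : I ≠ ⊥) :
    2 * (MD D S (fun _ => 1)) ^ 2 ≤ 2 * √(D : ℝ) * Lone D * (SD D S (fun _ => 1) + RR e S I 0) ∧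
    RR e S I 0 ≤ SD D S (fun _ => 1) := by
  have hL : 0 ≤ Lone D := (hN3 K D hD h2 hK).1
  let V : Finset ℕ → Finset (Ideal (𝓞 K)) := fun s => U K (prodS s)
  let ι : Type := Σ s : {s // s ∈ S}, {A // A ∈ V s}
  have hne0 : ∀ s ∈ S, ∀ A ∈ V s, A ≠ ⊥ := by
    intro s hs A hA h0
    have h1 := mem_U.mp hA
    rw [h0, Ideal.absNorm_bot] at h1
    exact (prodS_pos fun p hp => (hf s hs p hp).1).ne h1
  have hne : ∀ i : ι, (i.2 : Ideal (𝓞 K)) ≠ ⊥ := fun i => hne0 i.1 i.1.2 i.2 i.2.2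
  have hIc : ∀ i : ι, I * cj (i.2 : Ideal (𝓞 K)) ≠ ⊥ := fun i =>
    mul_ne_zero hI (cj_ne h2 _ (hne i))
  let F : ι ⊕ ι → nonZeroDivisors (Ideal (𝓞 K)) := Sum.elim
    (fun i => ⟨i.2, mem_nonZeroDivisors_of_ne_zero (hne i)⟩)
    (fun i => ⟨I * cj (i.2 : Ideal (𝓞 K)), mem_nonZeroDivisors_of_ne_zero (hIc i)⟩)
  let w1 : ι ⊕ ι → ℝ := Sum.elim (fun _ => 1) (fun _ => 1)
  let w2 : ι ⊕ ι → ℝ := Sum.elim (fun _ => 1) (fun _ => -1)
  have hw1 : ∀ i, 0 ≤ w1 i := by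
    rintro (i | i)
    · exact zero_le_one
    · exact zero_le_one
  have hsum : ∑ _i : ι, (1 : ℝ) = MD D S (fun _ => 1) := by
    have h := sum_sig S V (fun _ _ => (1 : ℝ))
    change ∑ i : (Σ s : {s // s ∈ S}, {A // A ∈ V s}), (1 : ℝ) = MD D S (fun _ => 1)
    rw [h]
    unfold MD
    refine Finset.sum_congr rfl fun s hs => ?_
    rw [Finset.sum_const, nsmul_eq_mul, mul_comm]
    congr 1
    have h1 := hN1 K D hD h2 hK s (hf s hs)
    have h3 : ((V s).card : ℤ) = ∏ p ∈ s, (1 + chi D p) := by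
      rw [← h1, ← card_U]
    have h4 : (((V s).card : ℤ) : ℝ) = ((∏ p ∈ s, (1 + chi D p) : ℤ) : ℝ) := by rw [h3]
    push_cast at h4
    exact h4
  -- the two diagonal blocks
  have hgen : ∀ g : Ideal (𝓞 K) → Ideal (𝓞 K),
      (∀ s ∈ S, Set.InjOn g (V s : Set (Ideal (𝓞 K)))) →
      (∀ s ∈ S, ∀ A ∈ V s, Ideal.absNorm (g A) = prodS s) →
      ∑ i : ι, ∑ j : ι, KAB e (g (i.2 : Ideal (𝓞 K))) (g (j.2 : Ideal (𝓞 K))) ≤
        SD D S (fun _ => 1) := by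
    intro g hg hgn
    have h : ∑ i : ι, ∑ j : ι,
          KAB e (g (i.2 : Ideal (𝓞 K))) (g (j.2 : Ideal (𝓞 K))) =
        ∑ s ∈ S, ∑ X ∈ V s, ∑ t ∈ S, ∑ Y ∈ V t, KAB e (g X) (g Y) := by
      rw [← sum_sig S V (fun s X => ∑ t ∈ S, ∑ Y ∈ V t, KAB e (g X) (g Y))]
      refine Finset.sum_congr rfl fun i _ => ?_
      exact sum_sig S V (fun t Y => KAB e (g (i.2 : Ideal (𝓞 K))) (g Y))
    rw [h]
    unfold SD
    refine Finset.sum_le_sum fun s hs => ?_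
    rw [Finset.sum_comm]
    refine Finset.sum_le_sum fun t ht => ?_
    have h3 : ∑ X ∈ V s, ∑ Y ∈ V t, KAB e (g X) (g Y) =
        ∑ X ∈ (V s).image g, ∑ Y ∈ (V t).image g, KAB e X Y := by
      rw [Finset.sum_image (hg s hs)]
      refine Finset.sum_congr rfl fun X _ => ?_
      rw [Finset.sum_image (hg t ht)]
    rw [h3]
    have h4 := hN6 K D hD h2 hK e s t (hf s hs) (hf t ht) ((V s).image g) ((V t).image g)
      (fun X hX => by
        obtain ⟨A, hA, rfl⟩ := Finset.mem_image.1 hX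
        exact hgn s hs A hA)
      (fun Y hY => by
        obtain ⟨A, hA, rfl⟩ := Finset.mem_image.1 hY
        exact hgn t ht A hA)
    calc ∑ X ∈ (V s).image g, ∑ Y ∈ (V t).image g, KAB e X Y
        ≤ (2 ^ ((s ∩ t).card) * Rsum D (prodS s * prodS t)) := h4
      _ = _ := by ring
  have hll : ∑ i : ι, ∑ j : ι, KAB e (i.2 : Ideal (𝓞 K)) (j.2 : Ideal (𝓞 K)) ≤
      SD D S (fun _ => 1) :=
    hgen (fun A => A) (fun s _ => Set.injOn_id _) (fun s _ A hA => mem_U.mp hA)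
  have hrr : ∑ i : ι, ∑ j : ι,
      KAB e (cj (i.2 : Ideal (𝓞 K))) (cj (j.2 : Ideal (𝓞 K))) ≤ SD D S (fun _ => 1) := by
    refine hgen cj ?_ ?_
    · intro s hs A hA B hB hAB
      rw [Finset.mem_coe] at hA hB
      exact cj_inj h2 (hne0 s hs A hA) (hne0 s hs B hB)
        ((mem_U.mp hA).trans (mem_U.mp hB).symm) hAB
    · intro s hs A hA
      rw [(cj_spec h2 A (hne0 s hs A hA)).2]
      exact mem_U.mp hA
  -- the off-diagonal blocks
  have hlr : ∑ i : ι, ∑ j : ι, KAB e (i.2 : Ideal (𝓞 K)) (I * cj (j.2 : Ideal (𝓞 K))) =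
      RR e S I 0 := by
    unfold RR
    rw [← sum_sig S V (fun s A => ∑ s' ∈ S, ∑ B ∈ V s', TAB e (A * B) I 0)]
    refine Finset.sum_congr rfl fun i _ => ?_
    rw [← sum_sig S V (fun s' B => TAB e ((i.2 : Ideal (𝓞 K)) * B) I 0)]
    refine Finset.sum_congr rfl fun j _ => ?_
    exact KAB_cancel h2 e _ I _ (hne j)
  have hrl : ∑ i : ι, ∑ j : ι, KAB e (I * cj (i.2 : Ideal (𝓞 K))) (j.2 : Ideal (𝓞 K)) =
      RR e S I 0 := by
    rw [← hlr, Finset.sum_comm]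
    refine Finset.sum_congr rfl fun i _ => Finset.sum_congr rfl fun j _ => ?_
    exact KAB_symm e _ _
  have hmain := (hN5 K D hD h2 hK e (ι ⊕ ι) F w1 hw1).1
  have hpos := kernel_pos hKF hN5b K D hD h2 hK e (ι ⊕ ι) F w2
  have hA : ∑ i, w1 i = 2 * MD D S (fun _ => 1) := by
    rw [Fintype.sum_sum_type]
    simp only [w1, Sum.elim_inl, Sum.elim_inr]
    rw [hsum]
    ring
  have hB : ∑ i, ∑ j, w1 i * w1 j * KAB e (F i : Ideal (𝓞 K)) (F j : Ideal (𝓞 K)) ≤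
      2 * SD D S (fun _ => 1) + 2 * RR e S I 0 := by
    rw [Fintype.sum_sum_type]
    simp only [Fintype.sum_sum_type, w1, F, Sum.elim_inl, Sum.elim_inr, one_mul,
      Finset.sum_add_distrib, KAB_mul e hI]
    rw [hlr, hrl]
    linarith
  have hC : ∑ i, ∑ j, w2 i * w2 j * KAB e (F i : Ideal (𝓞 K)) (F j : Ideal (𝓞 K)) ≤
      2 * SD D S (fun _ => 1) - 2 * RR e S I 0 := by
    rw [Fintype.sum_sum_type]
    simp only [Fintype.sum_sum_type, w2, F, Sum.elim_inl, Sum.elim_inr, one_mul, mul_one,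
      mul_neg, neg_mul, neg_neg, Finset.sum_neg_distrib,
      Finset.sum_add_distrib, KAB_mul e hI]
    rw [hlr, hrl]
    linarith
  rw [hA] at hmain
  have hc : 0 ≤ 2 * √(D : ℝ) * Lone D := by positivity
  have h7 := hmain.trans (mul_le_mul_of_nonneg_left hB hc)
  constructor
  · nlinarith
  · linarith

end Pool.Agent.H951R5.PE
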